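import Mathlib

/-!
# Groups: homogeneous quasimorphisms and amenability
-/

set_option autoImplicit false

namespace Pool.Agent.Helper60.MC

/-- `φ` is a homogeneous quasimorphism on the group `G`. -/
structure IsHomogeneousQuasimorphism {G : Type*} [Group G] (φ : G → ℝ) : Prop where
  bounded : ∃ D : ℝ, ∀ g h : G, |φ (g * h) - φ g - φ h| ≤ D
  homogeneous : ∀ (g : G) (n : ℤ), φ (g ^ n) = n * φ g

/-- The discrete group `G` is amenable: there is a finitely additive left invariant probability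
measure on the family of all subsets of `G`. -/
def IsAmenable (G : Type*) [Group G] : Prop :=
  ∃ m : Set G → ℝ, (∀ A, 0 ≤ m A) ∧ m Set.univ = 1 ∧
    (∀ A B, Disjoint A B → m (A ∪ B) = m A + m B) ∧
    ∀ (g : G) (A : Set G), m ((fun x => g * x) '' A) = m A

section QM

variable {G : Type*} [Group G] {φ : G → ℝ}

theorem zero_of_nat_mul_le {a D : ℝ} (h : ∀ n : ℕ, n * |a| ≤ D) : a = 0 := by
  by_contra ha
  have hp : 0 < |a| := abs_pos.2 ha
  obtain ⟨n, hn⟩ := exists_nat_gt (D / |a|)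
  rw [div_lt_iff₀ hp] at hn
  exact absurd (h n) (not_le.2 hn)

theorem IsHomogeneousQuasimorphism.pow (h : IsHomogeneousQuasimorphism φ) (g : G) (n : ℕ) :
    φ (g ^ n) = n * φ g := by
  have := h.homogeneous g n
  simpa using this

theorem IsHomogeneousQuasimorphism.one (h : IsHomogeneousQuasimorphism φ) : φ 1 = 0 := by
  have := h.pow 1 0
  simpa using this

theorem IsHomogeneousQuasimorphism.inv (h : IsHomogeneousQuasimorphism φ) (g : G) :
    φ g⁻¹ = - φ g := by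
  have := h.homogeneous g (-1)
  simpa using this

theorem IsHomogeneousQuasimorphism.of_commute (h : IsHomogeneousQuasimorphism φ) {x y : G}
    (hxy : Commute x y) : φ (x * y) = φ x + φ y := by
  obtain ⟨D, hD⟩ := h.bounded
  have key : φ (x * y) - φ x - φ y = 0 := by
    refine zero_of_nat_mul_le (D := D) fun n => ?_
    have h1 := hD (x ^ n) (y ^ n)
    rw [← hxy.mul_pow, h.pow, h.pow, h.pow] at h1
    have : (n : ℝ) * |φ (x * y) - φ x - φ y| = |n * φ (x * y) - n * φ x - n * φ y| := by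
      rw [show (n : ℝ) * φ (x * y) - n * φ x - n * φ y = n * (φ (x * y) - φ x - φ y) by ring,
        abs_mul, abs_of_nonneg (Nat.cast_nonneg n : (0 : ℝ) ≤ n)]
    rw [this]
    exact h1
  linarith

theorem IsHomogeneousQuasimorphism.conj (h : IsHomogeneousQuasimorphism φ) (x g : G) :
    φ (g * x * g⁻¹) = φ x := by
  obtain ⟨D, hD⟩ := h.bounded
  have key : φ (g * x * g⁻¹) - φ x = 0 := by
    refine zero_of_nat_mul_le (D := D + D) fun n => ?_
    have h1 := hD (g * x ^ n) g⁻¹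
    have h2 := hD g (x ^ n)
    rw [h.inv] at h1
    rw [h.pow] at h2
    rw [← conj_pow, h.pow] at h1
    have : (n : ℝ) * |φ (g * x * g⁻¹) - φ x| = |n * φ (g * x * g⁻¹) - n * φ x| := by
      rw [← mul_sub, abs_mul, abs_of_nonneg (Nat.cast_nonneg n : (0 : ℝ) ≤ n)]
    rw [this]
    rw [abs_le] at h1 h2 ⊢
    constructor <;> linarith [h1.1, h1.2, h2.1, h2.2]
  linarith

/-- the conjugate of `g` by `τ ^ i` -/
def cj (τ g : G) (i : ℕ) : G := τ ^ i * g * (τ ^ i)⁻¹

/-- ordered products of conjugates -/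
def pr (τ g : G) : ℕ → G
  | 0 => 1
  | n + 1 => pr τ g n * cj τ g n

theorem cj_mul (τ g h : G) (i : ℕ) : cj τ (g * h) i = cj τ g i * cj τ h i := by
  unfold cj; group

theorem cj_commute {τ g h : G} (H : ∀ j : ℕ, 1 ≤ j → Commute g (cj τ h j)) {i j : ℕ} (hij : i < j) :
    Commute (cj τ g i) (cj τ h j) := by
  obtain ⟨k, rfl⟩ := Nat.exists_eq_add_of_lt hij
  have h1 := H (k + 1) (by omega)
  have h2 : cj τ h (i + k + 1) = τ ^ i * cj τ h (k + 1) * (τ ^ i)⁻¹ := by
    unfold cj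
    rw [add_assoc, pow_add]
    group
  rw [h2]
  unfold Commute SemiconjBy cj at *
  calc τ ^ i * g * (τ ^ i)⁻¹ * (τ ^ i * (τ ^ (k + 1) * h * (τ ^ (k + 1))⁻¹) * (τ ^ i)⁻¹)
      = τ ^ i * (g * (τ ^ (k + 1) * h * (τ ^ (k + 1))⁻¹)) * (τ ^ i)⁻¹ := by group
    _ = τ ^ i * ((τ ^ (k + 1) * h * (τ ^ (k + 1))⁻¹) * g) * (τ ^ i)⁻¹ := by rw [h1]
    _ = _ := by group

theorem pr_commute {τ g h : G} (H : ∀ j : ℕ, 1 ≤ j → Commute g (cj τ h j)) {n m : ℕ} (hnm : n ≤ m) :
    Commute (pr τ g n) (cj τ h m) := by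
  induction n with
  | zero => exact Commute.one_left _
  | succ n ih =>
    exact (ih (by omega)).mul_left (cj_commute H (by omega))

theorem IsHomogeneousQuasimorphism.pr_val (hφ : IsHomogeneousQuasimorphism φ) {τ g : G}
    (H : ∀ j : ℕ, 1 ≤ j → Commute g (cj τ g j)) (n : ℕ) : φ (pr τ g n) = n * φ g := by
  induction n with
  | zero => simp [pr, hφ.one]
  | succ n ih =>
    rw [pr, hφ.of_commute (pr_commute H le_rfl), ih, cj, hφ.conj]
    push_cast
    ring

/-- If the conjugates of `x` and `y` by the powers `τ ^ j`, `j ≥ 1`, commute with `x` and `y`, then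
a homogeneous quasimorphism is additive on `x` and `y`. -/
theorem IsHomogeneousQuasimorphism.add_of_displaced (hφ : IsHomogeneousQuasimorphism φ)
    {τ x y : G} (hxx : ∀ j : ℕ, 1 ≤ j → Commute x (cj τ x j))
    (hyy : ∀ j : ℕ, 1 ≤ j → Commute y (cj τ y j)) (hxy : ∀ j : ℕ, 1 ≤ j → Commute x (cj τ y j))
    (hyx : ∀ j : ℕ, 1 ≤ j → Commute y (cj τ x j)) : φ (x * y) = φ x + φ y := by
  have e : ∀ n, pr τ x n * pr τ y n = pr τ (x * y) n := by
    intro n
    induction n with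
    | zero => simp [pr]
    | succ n ih =>
      have hc : Commute (pr τ y n) (cj τ x n) := pr_commute hyx le_rfl
      calc pr τ x (n + 1) * pr τ y (n + 1) = pr τ x n * (cj τ x n * pr τ y n) * cj τ y n := by
            simp only [pr]; group
        _ = pr τ x n * (pr τ y n * cj τ x n) * cj τ y n := by rw [hc.eq]
        _ = (pr τ x n * pr τ y n) * (cj τ x n * cj τ y n) := by group
        _ = _ := by rw [ih, ← cj_mul]; rfl
  have hz : ∀ j : ℕ, 1 ≤ j → Commute (x * y) (cj τ (x * y) j) := by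
    intro j hj
    rw [cj_mul]
    exact ((hxx j hj).mul_left (hyx j hj)).mul_right ((hxy j hj).mul_left (hyy j hj))
  obtain ⟨D, hD⟩ := hφ.bounded
  have key : φ (x * y) - φ x - φ y = 0 := by
    refine zero_of_nat_mul_le (D := D) fun n => ?_
    have h1 := hD (pr τ x n) (pr τ y n)
    rw [e, hφ.pr_val hz, hφ.pr_val hxx, hφ.pr_val hyy] at h1
    have : (n : ℝ) * |φ (x * y) - φ x - φ y| = |n * φ (x * y) - n * φ x - n * φ y| := by
      rw [show (n : ℝ) * φ (x * y) - n * φ x - n * φ y = n * (φ (x * y) - φ x - φ y) by ring,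
        abs_mul, abs_of_nonneg (Nat.cast_nonneg n : (0 : ℝ) ≤ n)]
    rw [this]
    exact h1
  linarith

/-- Let `N` be a subgroup normalized by `τ` such that every element of `G` is in some `N τ ^ k`
and such that for all `x`, `y` in `N` there is `σ` such that the conjugates of `x` and `y` by the
powers `σ ^ j`, `j ≥ 1`, commute with `x` and `y`. Then every homogeneous quasimorphism on `G` is
a homomorphism. -/
theorem IsHomogeneousQuasimorphism.hom_of_displaced (hφ : IsHomogeneousQuasimorphism φ)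
    (N : Subgroup G) (τ : G) (hτ : ∀ x ∈ N, ∀ k : ℤ, τ ^ k * x * (τ ^ k)⁻¹ ∈ N)
    (hN : ∀ g : G, ∃ x ∈ N, ∃ k : ℤ, g = x * τ ^ k)
    (hd : ∀ x ∈ N, ∀ y ∈ N, ∃ σ : G, ∀ a, (a = x ∨ a = y) → ∀ b, (b = x ∨ b = y) →
      ∀ j : ℕ, 1 ≤ j → Commute a (cj σ b j)) (g h : G) :
    φ (g * h) = φ g + φ h := by
  have hadd : ∀ x ∈ N, ∀ y ∈ N, φ (x * y) = φ x + φ y := by
    intro x hx y hy
    obtain ⟨σ, hσ⟩ := hd x hx y hy
    exact hφ.add_of_displaced (hσ x (Or.inl rfl) x (Or.inl rfl))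
      (hσ y (Or.inr rfl) y (Or.inr rfl)) (hσ x (Or.inl rfl) y (Or.inr rfl))
      (hσ y (Or.inr rfl) x (Or.inl rfl))
  -- the value at `x τ ^ k`
  have hval : ∀ x ∈ N, ∀ k : ℤ, φ (x * τ ^ k) = φ x + k * φ τ := by
    intro x hx k
    have hp : ∀ n : ℕ, pr (τ ^ k) x n ∈ N ∧ φ (pr (τ ^ k) x n) = n * φ x ∧
        (x * τ ^ k) ^ n = pr (τ ^ k) x n * (τ ^ k) ^ n := by
      intro n
      induction n with
      | zero => exact ⟨N.one_mem, by simp [pr, hφ.one], by simp [pr]⟩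
      | succ n ih =>
        obtain ⟨h1, h2, h3⟩ := ih
        have h4 : cj (τ ^ k) x n ∈ N := by
          have := hτ x hx (k * n)
          unfold cj
          rwa [zpow_mul, zpow_natCast] at this
        refine ⟨N.mul_mem h1 h4, ?_, ?_⟩
        · rw [pr, hadd _ h1 _ h4, h2, cj, hφ.conj]
          push_cast
          ring
        · rw [pow_succ, h3, pr, cj, pow_succ]
          simp only [mul_assoc, inv_mul_cancel_left]
    obtain ⟨D, hD⟩ := hφ.bounded
    have key : φ (x * τ ^ k) - (φ x + k * φ τ) = 0 := by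
      refine zero_of_nat_mul_le (D := D) fun n => ?_
      obtain ⟨-, h2, h3⟩ := hp n
      have h1 := hD (pr (τ ^ k) x n) ((τ ^ k) ^ n)
      rw [← h3, h2, hφ.pow, hφ.pow, hφ.homogeneous] at h1
      have : (n : ℝ) * |φ (x * τ ^ k) - (φ x + k * φ τ)| =
          |n * φ (x * τ ^ k) - n * φ x - n * (k * φ τ)| := by
        rw [show (n : ℝ) * φ (x * τ ^ k) - n * φ x - n * (k * φ τ) =
            n * (φ (x * τ ^ k) - (φ x + k * φ τ)) by ring,
          abs_mul, abs_of_nonneg (Nat.cast_nonneg n : (0 : ℝ) ≤ n)]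
      rw [this]
      exact h1
    linarith
  obtain ⟨x, hx, k, rfl⟩ := hN g
  obtain ⟨y, hy, l, rfl⟩ := hN h
  have e : x * τ ^ k * (y * τ ^ l) = (x * (τ ^ k * y * (τ ^ k)⁻¹)) * τ ^ (k + l) := by
    rw [zpow_add]; group
  rw [e, hval _ (N.mul_mem hx (hτ y hy k)), hadd x hx _ (hτ y hy k), hφ.conj, hval x hx, hval y hy]
  push_cast
  ring

end QM

section Amenable

variable {Λ H Ω : Type*} [Group Λ] [Group H]

/-- A criterion for non-amenability: a paradoxical action of a subgroup. -/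
theorem not_amenable_of_action (π : Λ →* H) (α : Λ →* Equiv.Perm Ω)
    (hker : ∀ l, π l = 1 → α l = 1) (A₀ A₁ A₀₀ A₀₁ : Set Ω) (x₀ : Ω) (hx₀ : x₀ ∈ A₀ ∪ A₁)
    (hd : Disjoint A₀ A₁) (hd0 : Disjoint A₀₀ A₀₁) (h0 : A₀₀ ∪ A₀₁ = A₀)
    (s t u : Λ) (hs : α s '' (A₀ ∪ A₁) = A₀ ∪ A₁) (ht : α t '' (A₀ ∪ A₁) = A₀ ∪ A₁)
    (hu : α u '' (A₀ ∪ A₁) = A₀ ∪ A₁) (hs' : α s '' A₀ = A₁) (ht' : α t '' A₀₀ = A₀₁)
    (hu' : α u '' A₀₁ = A₁) : ¬ IsAmenable H := by
  classical
  rintro ⟨m, hm0, hm1, hma, hmi⟩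
  -- the subgroup preserving `A₀ ∪ A₁`
  let Λ₀ : Subgroup Λ :=
    { carrier := {l | α l '' (A₀ ∪ A₁) = A₀ ∪ A₁}
      mul_mem' := by
        intro a b ha hb
        simp only [Set.mem_ofPred_eq] at *
        rw [map_mul, Equiv.Perm.coe_mul, Set.image_comp, hb, ha]
      one_mem' := by simp
      inv_mem' := by
        intro a ha
        simp only [Set.mem_ofPred_eq] at *
        conv_lhs => rw [← ha]
        rw [map_inv, ← Set.image_comp]
        simp }
  let H₀ : Subgroup H := Λ₀.map π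
  -- representatives of the right cosets
  let r : Setoid H := QuotientGroup.rightRel H₀
  have hrep : ∀ h : H, ∃ l ∈ Λ₀, h = π l * (Quotient.mk r h).out := by
    intro h
    have h1 : r.r (Quotient.mk r h).out h := Quotient.exact (Quotient.out_eq _)
    have h2 : h * ((Quotient.mk r h).out)⁻¹ ∈ H₀ := QuotientGroup.rightRel_apply.1 h1
    obtain ⟨l, hl, hl'⟩ := h2
    exact ⟨l, hl, by rw [hl']; group⟩
  choose L hL hL' using hrep
  let q : H → Ω := fun h => α (L h) x₀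
  have hαπ : ∀ a b : Λ, π a = π b → α a = α b := by
    intro a b hab
    have := hker (a * b⁻¹) (by rw [map_mul, map_inv, hab, mul_inv_cancel])
    rw [map_mul, map_inv] at this
    exact mul_inv_eq_one.1 this
  have hq : ∀ l ∈ Λ₀, ∀ h, q (π l * h) = α l (q h) := by
    intro l hl h
    have h1 : Quotient.mk r (π l * h) = Quotient.mk r h := by
      apply Quotient.sound
      rw [show (π l * h ≈ h) = r.r (π l * h) h from rfl]
      refine QuotientGroup.rightRel_apply.2 ?_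
      refine ⟨l⁻¹, Λ₀.inv_mem hl, ?_⟩
      rw [map_inv]; group
    have h2 := hL' (π l * h)
    rw [h1] at h2
    conv_lhs at h2 => rw [hL' h, ← mul_assoc, ← map_mul]
    have h3 := hαπ _ _ (mul_right_cancel h2)
    show α (L (π l * h)) x₀ = α l (α (L h) x₀)
    rw [← h3, map_mul, Equiv.Perm.mul_apply]
  have hqm : ∀ h, q h ∈ A₀ ∪ A₁ := by
    intro h
    have := hL h
    have h1 : α (L h) '' (A₀ ∪ A₁) = A₀ ∪ A₁ := this
    rw [← h1]
    exact ⟨x₀, hx₀, rfl⟩
  let μ : Set Ω → ℝ := fun A => m (q ⁻¹' A)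
  have hμi : ∀ l ∈ Λ₀, ∀ A, μ (α l '' A) = μ A := by
    intro l hl A
    have : q ⁻¹' (α l '' A) = (fun x => π l * x) '' (q ⁻¹' A) := by
      ext h
      constructor
      · rintro ⟨a, ha, hah⟩
        refine ⟨(π l)⁻¹ * h, ?_, by group⟩
        show q ((π l)⁻¹ * h) ∈ A
        rw [← map_inv, hq _ (Λ₀.inv_mem hl), ← hah, map_inv]
        have e : (α l)⁻¹ ((α l) a) = a := (α l).symm_apply_apply a
        rw [e]
        exact ha
      · rintro ⟨a, ha, rfl⟩
        show q (π l * a) ∈ α l '' A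
        rw [hq l hl]
        exact ⟨q a, ha, rfl⟩
    show m (q ⁻¹' (α l '' A)) = m (q ⁻¹' A)
    rw [this, hmi]
  have hμa : ∀ A B : Set Ω, Disjoint A B → μ (A ∪ B) = μ A + μ B := by
    intro A B hAB
    show m (q ⁻¹' (A ∪ B)) = _
    rw [Set.preimage_union]
    exact hma _ _ (hAB.preimage q)
  have hμ1 : μ (A₀ ∪ A₁) = 1 := by
    show m (q ⁻¹' (A₀ ∪ A₁)) = 1
    rw [show q ⁻¹' (A₀ ∪ A₁) = Set.univ from Set.eq_univ_of_forall hqm]
    exact hm1
  have e1 : μ A₁ = μ A₀ := by rw [← hs']; exact hμi s hs _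
  have e2 : μ A₀₁ = μ A₀₀ := by rw [← ht']; exact hμi t ht _
  have e3 : μ A₁ = μ A₀₁ := by rw [← hu']; exact hμi u hu _
  have e4 : μ A₀ = μ A₀₀ + μ A₀₁ := by rw [← h0]; exact hμa _ _ hd0
  have e5 : μ (A₀ ∪ A₁) = μ A₀ + μ A₁ := hμa _ _ hd
  linarith

end Amenable

end Pool.Agent.Helper60.MC
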