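import Mathlib
import Pool.Agent.Helper60.MC.Grp

/-!
# The mapping class group of the plane minus a Cantor set

Definitions: Cantor sets in the plane, the surface `S = ℂ ∖ C`, orientation preserving
homeomorphisms of `S`, isotopies, the mapping class group `Map S`, and the vector space of
homogeneous quasimorphisms of a group modulo homomorphisms.
-/

set_option autoImplicit false

namespace Pool.Agent.Helper60.MC

open Set Topology

/-- `C` is a Cantor set: a nonempty compact totally disconnected set without isolated points. -/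
structure IsCantorSet (C : Set ℂ) : Prop where
  nonempty : C.Nonempty
  isCompact : IsCompact C
  isTotallyDisconnected : IsTotallyDisconnected C
  noIsolatedPoints : ∀ c ∈ C, ∀ ε > 0, ∃ d ∈ C, d ≠ c ∧ dist d c < ε

/-- The surface `S = ℂ ∖ C`. -/
abbrev Surf (C : Set ℂ) : Type := {z : ℂ // z ∉ C}

/-- The loops `L` and `L'` (maps of the unit circle) are freely homotopic in `ℂ ∖ {0}`. -/
def LoopHomotopic (L L' : Circle → ℂ) : Prop :=
  ∃ K : unitInterval × Circle → ℂ, Continuous K ∧ (∀ p, K p ≠ 0) ∧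
    (∀ u, K (0, u) = L u) ∧ ∀ u, K (1, u) = L' u

/-- The value `f z` of a map `f` of `S` to itself at the point `z` of `S`, as a complex number (the
value is zero if `z` is not in `S`). -/
noncomputable def val {C : Set ℂ} (f : Surf C ≃ₜ Surf C) (z : ℂ) : ℂ :=
  open Classical in if h : z ∉ C then (f ⟨z, h⟩ : ℂ) else 0

/-- The homeomorphism `f` of `S` has local degree one: for every closed disc in `S` with center `x`
and radius `r > 0` the loop `u ↦ f (x + r u) - f x`, `|u| = 1`, is homotopic in `ℂ ∖ {0}` to the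
standard loop `u ↦ u`. -/
def LocalDegreeOne {C : Set ℂ} (f : Surf C ≃ₜ Surf C) : Prop :=
  ∀ (x : ℂ) (r : ℝ), 0 < r → (∀ z, dist z x ≤ r → z ∉ C) →
    LoopHomotopic (fun u => val f (x + r * u) - val f x) fun u => (u : ℂ)

theorem LoopHomotopic.iff {L L' : Circle → ℂ} : LoopHomotopic L L' ↔
    ∃ A B : C(Circle, {z : ℂ // z ≠ 0}), (∀ u, (A u : ℂ) = L u) ∧ (∀ u, (B u : ℂ) = L' u) ∧
      A.Homotopic B := by
  constructor
  · rintro ⟨K, hK, hne, h0, h1⟩
    refine ⟨⟨fun u => ⟨K (0, u), hne _⟩, by fun_prop⟩, ⟨fun u => ⟨K (1, u), hne _⟩, by fun_prop⟩,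
      h0, h1, ⟨⟨⟨fun p => ⟨K p, hne p⟩, by fun_prop⟩, fun u => rfl, fun u => rfl⟩⟩⟩
  · rintro ⟨A, B, hA, hB, ⟨H⟩⟩
    refine ⟨fun p => (H p : ℂ), by fun_prop, fun p => (H p).2, fun u => ?_, fun u => ?_⟩
    · beta_reduce
      rw [← hA, H.apply_zero]
    · beta_reduce
      rw [← hB, H.apply_one]

theorem LoopHomotopic.refl {L : Circle → ℂ} (hL : Continuous L) (h0 : ∀ u, L u ≠ 0) :
    LoopHomotopic L L :=
  ⟨fun p => L p.2, by fun_prop, fun p => h0 p.2, fun _ => rfl, fun _ => rfl⟩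

theorem LoopHomotopic.symm {L L' : Circle → ℂ} (h : LoopHomotopic L L') : LoopHomotopic L' L := by
  obtain ⟨A, B, hA, hB, h⟩ := LoopHomotopic.iff.1 h
  exact LoopHomotopic.iff.2 ⟨B, A, hB, hA, h.symm⟩

theorem LoopHomotopic.trans {L L' L'' : Circle → ℂ} (h : LoopHomotopic L L')
    (h' : LoopHomotopic L' L'') : LoopHomotopic L L'' := by
  obtain ⟨A, B, hA, hB, h⟩ := LoopHomotopic.iff.1 h
  obtain ⟨A', B', hA', hB', h'⟩ := LoopHomotopic.iff.1 h'
  have : B = A' := by
    ext u
    rw [hB, hA']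
  subst this
  exact LoopHomotopic.iff.2 ⟨A, B', hA, hB', h.trans h'⟩

theorem val_of_notMem {C : Set ℂ} (f : Surf C ≃ₜ Surf C) {z : ℂ} (h : z ∉ C) :
    val f z = f ⟨z, h⟩ := by
  unfold val
  rw [dif_pos h]

theorem val_notMem {C : Set ℂ} (f : Surf C ≃ₜ Surf C) {z : ℂ} (h : z ∉ C) : val f z ∉ C := by
  rw [val_of_notMem f h]
  exact (f ⟨z, h⟩).2

theorem val_inj {C : Set ℂ} (f : Surf C ≃ₜ Surf C) {z w : ℂ} (hz : z ∉ C) (hw : w ∉ C)
    (h : val f z = val f w) : z = w := by
  rw [val_of_notMem f hz, val_of_notMem f hw] at h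
  have := f.injective (Subtype.ext h)
  exact congrArg Subtype.val this

theorem val_mul {C : Set ℂ} (f g : Surf C ≃ₜ Surf C) {z : ℂ} (hz : z ∉ C) :
    val (f * g) z = val f (val g z) := by
  rw [val_of_notMem _ hz, val_of_notMem g hz, val_of_notMem f (g ⟨z, hz⟩).2]
  rfl

theorem val_comp_continuous {C : Set ℂ} (f : Surf C ≃ₜ Surf C) {X : Type*} [TopologicalSpace X]
    {g : X → ℂ} (hg : Continuous g) (h : ∀ x, g x ∉ C) : Continuous fun x => val f (g x) := by
  have : (fun x => val f (g x)) = fun x => (f ⟨g x, h x⟩ : ℂ) := by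
    ext x
    exact val_of_notMem f (h x)
  rw [this]
  fun_prop

theorem circle_smul_norm (r : ℝ) (u : Circle) : ‖(r : ℂ) * u‖ = |r| := by
  rw [norm_mul, Circle.norm_coe, mul_one, Complex.norm_real, Real.norm_eq_abs]

/-- the loops of different radii are homotopic -/
theorem radius_homotopic {C : Set ℂ} (f : Surf C ≃ₜ Surf C) {x : ℂ} {r r' : ℝ} (hr : 0 < r)
    (hr' : 0 < r') (h : ∀ z, dist z x ≤ r → z ∉ C) (h' : ∀ z, dist z x ≤ r' → z ∉ C) :
    LoopHomotopic (fun u => val f (x + r * u) - val f x)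
      fun u => val f (x + r' * u) - val f x := by
  have hx : x ∉ C := h x (by simp [hr.le])
  have hpos : ∀ t : unitInterval, 0 < (1 - (t : ℝ)) * r + t * r' := by
    intro t
    have h0 := t.2.1
    have h1 := t.2.2
    rcases h0.eq_or_lt with h2 | h2
    · rw [← h2]; simpa using hr
    · have : 0 < (t : ℝ) * r' := by positivity
      have : 0 ≤ (1 - (t : ℝ)) * r := mul_nonneg (by linarith) hr.le
      linarith
  have hle : ∀ t : unitInterval, (1 - (t : ℝ)) * r + t * r' ≤ max r r' := by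
    intro t
    have h0 := t.2.1
    have h1 := t.2.2
    have := le_max_left r r'
    have := le_max_right r r'
    nlinarith
  have hm : ∀ z, dist z x ≤ max r r' → z ∉ C := by
    intro z hz
    rcases le_max_iff.1 hz with h2 | h2
    · exact h z h2
    · exact h' z h2
  have hmem : ∀ p : unitInterval × Circle,
      x + (((1 - (p.1 : ℝ)) * r + p.1 * r' : ℝ) : ℂ) * p.2 ∉ C := by
    intro p
    apply hm
    rw [dist_eq_norm, add_sub_cancel_left, circle_smul_norm, abs_of_pos (hpos p.1)]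
    exact hle p.1
  refine ⟨fun p => val f (x + (((1 - (p.1 : ℝ)) * r + p.1 * r' : ℝ) : ℂ) * p.2) - val f x,
    ?_, ?_, ?_, ?_⟩
  · exact (val_comp_continuous f (by fun_prop) hmem).sub continuous_const
  · intro p h2
    have h3 := val_inj f (hmem p) hx (sub_eq_zero.1 h2)
    have h4 : (((1 - (p.1 : ℝ)) * r + p.1 * r' : ℝ) : ℂ) * p.2 = 0 := by
      have := congrArg (fun w => w - x) h3
      simpa using this
    have h5 := circle_smul_norm ((1 - (p.1 : ℝ)) * r + p.1 * r') p.2
    rw [h4, norm_zero, abs_of_pos (hpos p.1)] at h5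
    exact absurd h5 (hpos p.1).ne
  · intro u
    simp
  · intro u
    simp

theorem LocalDegreeOne.one {C : Set ℂ} : LocalDegreeOne (1 : Surf C ≃ₜ Surf C) := by
  intro x r hr h
  have hx : x ∉ C := h x (by simp [hr.le])
  have hv : ∀ z, z ∉ C → val (1 : Surf C ≃ₜ Surf C) z = z := by
    intro z hz
    rw [val_of_notMem _ hz]; rfl
  have hmem : ∀ u : Circle, x + (r : ℂ) * u ∉ C := by
    intro u
    apply h
    rw [dist_eq_norm, add_sub_cancel_left, circle_smul_norm, abs_of_pos hr]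
  have hpos : ∀ t : unitInterval, 0 < (1 - (t : ℝ)) * r + t := by
    intro t
    have h0 := t.2.1
    have h1 := t.2.2
    rcases h0.eq_or_lt with h2 | h2
    · rw [← h2]; simpa using hr
    · have : 0 ≤ (1 - (t : ℝ)) * r := mul_nonneg (by linarith) hr.le
      linarith
  refine ⟨fun p => (((1 - (p.1 : ℝ)) * r + p.1 : ℝ) : ℂ) * p.2, by fun_prop, ?_, ?_, ?_⟩
  · intro p
    refine mul_ne_zero ?_ (Circle.coe_ne_zero _)
    exact_mod_cast (hpos p.1).ne'
  · intro u
    beta_reduce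
    rw [hv _ (hmem u), hv _ hx]
    simp
  · intro u
    simp

theorem LocalDegreeOne.mul {C : Set ℂ} {f g : Surf C ≃ₜ Surf C} (hf : LocalDegreeOne f)
    (hg : LocalDegreeOne g) (hC : IsClosed C) : LocalDegreeOne (f * g) := by
  intro x r hr h
  have hx : x ∉ C := h x (by simp [hr.le])
  set y : ℂ := val g x with hy
  have hyC : y ∉ C := val_notMem g hx
  -- a disc around `y`
  obtain ⟨R, hR, hRC⟩ : ∃ R > 0, ∀ z, dist z y ≤ R → z ∉ C := by
    obtain ⟨R, hR, h1⟩ := Metric.isOpen_iff.1 hC.isOpen_compl y hyC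
    refine ⟨R / 2, by positivity, fun z hz => h1 ?_⟩
    rw [Metric.mem_ball]
    linarith
  -- a smaller radius
  obtain ⟨δ, hδ, hδr, hδg⟩ : ∃ δ > 0, δ ≤ r ∧ ∀ z, dist z x ≤ δ → dist (val g z) y ≤ R := by
    have h1 : ContinuousAt (fun z : Surf C => (g z : ℂ)) ⟨x, hx⟩ := by
      apply Continuous.continuousAt
      fun_prop
    obtain ⟨δ, hδ, h2⟩ := Metric.continuousAt_iff.1 h1 R hR
    refine ⟨min (δ / 2) r, by positivity, min_le_right _ _, fun z hz => ?_⟩
    have hzC : z ∉ C := h z (hz.trans (min_le_right _ _))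
    have h3 : dist (⟨z, hzC⟩ : Surf C) ⟨x, hx⟩ < δ := by
      rw [Subtype.dist_eq]
      have := hz.trans (min_le_left _ _)
      linarith
    have h4 := h2 h3
    rw [val_of_notMem g hzC, hy, val_of_notMem g hx]
    exact h4.le
  have hδC : ∀ z, dist z x ≤ δ → z ∉ C := fun z hz => h z (hz.trans hδr)
  refine (radius_homotopic (f * g) hr hδ h hδC).trans ?_
  have hcirc : ∀ u : Circle, dist (x + (δ : ℂ) * u) x ≤ δ := by
    intro u
    rw [dist_eq_norm, add_sub_cancel_left, circle_smul_norm, abs_of_pos hδ]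
  obtain ⟨K, hK, hK0, hKs, hKe⟩ := hg x δ hδ hδC
  -- cut off the homotopy
  let c : ℂ → ℝ := fun z => min 1 (R / ‖z‖)
  have hc0 : ∀ z, z ≠ 0 → 0 < c z := fun z hz =>
    lt_min one_pos (div_pos hR (norm_pos_iff.2 hz))
  have hcR : ∀ z, z ≠ 0 → c z * ‖z‖ ≤ R := by
    intro z hz
    have hp := norm_pos_iff.2 hz
    calc c z * ‖z‖ ≤ R / ‖z‖ * ‖z‖ := by
          apply mul_le_mul_of_nonneg_right (min_le_right _ _) hp.le
      _ = R := div_mul_cancel₀ _ hp.ne'
  let K' : unitInterval × Circle → ℂ := fun p => (c (K p) : ℂ) * K p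
  have hK' : Continuous K' := by
    have h1 : Continuous fun p => c (K p) :=
      continuous_const.min (continuous_const.div hK.norm fun p => norm_ne_zero_iff.2 (hK0 p))
    exact (Complex.continuous_ofReal.comp h1).mul hK
  have hK'0 : ∀ p, K' p ≠ 0 := fun p =>
    mul_ne_zero (by exact_mod_cast (hc0 _ (hK0 p)).ne') (hK0 p)
  have hK'R : ∀ p, ‖K' p‖ ≤ R := by
    intro p
    show ‖(c (K p) : ℂ) * K p‖ ≤ R
    rw [norm_mul, Complex.norm_real, Real.norm_eq_abs, abs_of_pos (hc0 _ (hK0 p))]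
    exact hcR _ (hK0 p)
  have hmem : ∀ p, y + K' p ∉ C := by
    intro p
    apply hRC
    rw [dist_eq_norm, add_sub_cancel_left]
    exact hK'R p
  set ρ : ℝ := min 1 R with hρ
  have hρ0 : 0 < ρ := lt_min one_pos hR
  have step1 : LoopHomotopic (fun u => val (f * g) (x + δ * u) - val (f * g) x)
      fun u => val f (y + ρ * u) - val f y := by
    refine ⟨fun p => val f (y + K' p) - val f y, ?_, ?_, ?_, ?_⟩
    · exact (val_comp_continuous f (by fun_prop) hmem).sub continuous_const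
    · intro p h2
      have h3 := val_inj f (hmem p) hyC (sub_eq_zero.1 h2)
      have h4 : K' p = 0 := by
        have := congrArg (fun w => w - y) h3
        simpa using this
      exact hK'0 p h4
    · intro u
      have h1 : c (K (0, u)) = 1 := by
        refine min_eq_left ?_
        rw [le_div_iff₀ (norm_pos_iff.2 (hK0 _)), one_mul, hKs]
        have := hδg _ (hcirc u)
        rwa [dist_eq_norm] at this
      show val f (y + (c (K (0, u)) : ℂ) * K (0, u)) - val f y = _
      rw [h1, hKs]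
      beta_reduce
      rw [val_mul f g (hδC _ (hcirc u)), val_mul f g hx]
      simp [hy]
    · intro u
      have h1 : c (K (1, u)) = ρ := by
        show min 1 (R / ‖K (1, u)‖) = ρ
        rw [hKe, Circle.norm_coe, div_one]
      show val f (y + (c (K (1, u)) : ℂ) * K (1, u)) - val f y = _
      rw [h1, hKe]
  refine step1.trans (hf y ρ hρ0 fun z hz => hRC z (hz.trans (min_le_right _ _)))

theorem plus_mul {C : Set ℂ} (hC : IsClosed C) {f g : Surf C ≃ₜ Surf C}
    (hf : LocalDegreeOne f ∧ LocalDegreeOne f⁻¹) (hg : LocalDegreeOne g ∧ LocalDegreeOne g⁻¹) :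
    LocalDegreeOne (f * g) ∧ LocalDegreeOne (f * g)⁻¹ := by
  refine ⟨hf.1.mul hg.1 hC, ?_⟩
  rw [mul_inv_rev]
  exact hg.2.mul hf.2 hC

theorem plus_one {C : Set ℂ} : LocalDegreeOne (1 : Surf C ≃ₜ Surf C) ∧
    LocalDegreeOne (1 : Surf C ≃ₜ Surf C)⁻¹ :=
  ⟨.one, by rw [inv_one]; exact .one⟩

theorem plus_inv {C : Set ℂ} {f : Surf C ≃ₜ Surf C}
    (hf : LocalDegreeOne f ∧ LocalDegreeOne f⁻¹) : LocalDegreeOne f⁻¹ ∧ LocalDegreeOne f⁻¹⁻¹ :=
  ⟨hf.2, by rw [inv_inv]; exact hf.1⟩

/-- The group `Homeo⁺(S)` of the orientation preserving homeomorphisms of the surface `S = ℂ ∖ C`,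
`C` closed. A homeomorphism of an oriented surface preserves the orientation if and only if it and
its inverse have local degree one at all points. -/
def HomeoPlus (C : Set ℂ) (hC : IsClosed C) : Subgroup (Surf C ≃ₜ Surf C) where
  carrier := {f | LocalDegreeOne f ∧ LocalDegreeOne f⁻¹}
  mul_mem' := plus_mul hC
  one_mem' := plus_one
  inv_mem' := plus_inv

/-- The homeomorphism `f` of `S` is isotopic to the identity: there is a continuous family of
homeomorphisms `h (t, ·)`, `0 ≤ t ≤ 1`, with `h (0, ·) = id` and `h (1, ·) = f`. -/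
def IsotopicToId {C : Set ℂ} (f : Surf C ≃ₜ Surf C) : Prop :=
  ∃ h : unitInterval × Surf C → Surf C, Continuous h ∧
    (∀ t, ∃ g : Surf C ≃ₜ Surf C, ∀ x, h (t, x) = g x) ∧
    (∀ x, h (0, x) = x) ∧ ∀ x, h (1, x) = f x

theorem IsotopicToId.mul {C : Set ℂ} {f g : Surf C ≃ₜ Surf C} (hf : IsotopicToId f)
    (hg : IsotopicToId g) : IsotopicToId (f * g) := by
  obtain ⟨h, hc, hh, h0, h1⟩ := hf
  obtain ⟨k, kc, kk, k0, k1⟩ := hg
  refine ⟨fun p => h (p.1, k p), by fun_prop, fun t => ?_, fun x => ?_, fun x => ?_⟩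
  · obtain ⟨a, ha⟩ := hh t
    obtain ⟨b, hb⟩ := kk t
    exact ⟨a * b, fun x => by beta_reduce; rw [Homeomorph.mul_apply, ha, hb]⟩
  · beta_reduce
    rw [k0, h0]
  · beta_reduce
    rw [k1, h1]; rfl

theorem IsotopicToId.one {C : Set ℂ} : IsotopicToId (1 : Surf C ≃ₜ Surf C) :=
  ⟨fun p => p.2, continuous_snd, fun _ => ⟨1, fun _ => rfl⟩, fun _ => rfl, fun _ => rfl⟩

theorem IsotopicToId.inv {C : Set ℂ} {f : Surf C ≃ₜ Surf C} (hf : IsotopicToId f) :
    IsotopicToId f⁻¹ := by
  obtain ⟨h, hc, hh, h0, h1⟩ := hf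
  refine ⟨fun p => f⁻¹ (h (unitInterval.symm p.1, p.2)), ?_, fun t => ?_, fun x => ?_,
    fun x => ?_⟩
  · exact (f⁻¹).continuous.comp (hc.comp (by fun_prop))
  · obtain ⟨a, ha⟩ := hh (unitInterval.symm t)
    exact ⟨f⁻¹ * a, fun x => by beta_reduce; rw [Homeomorph.mul_apply, ha]⟩
  · simp only [unitInterval.symm_zero, h1]
    exact f.symm_apply_apply x
  · simp only [unitInterval.symm_one, h0]

theorem IsotopicToId.conj {C : Set ℂ} {f : Surf C ≃ₜ Surf C} (hf : IsotopicToId f)
    (g : Surf C ≃ₜ Surf C) : IsotopicToId (g * f * g⁻¹) := by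
  obtain ⟨h, hc, hh, h0, h1⟩ := hf
  refine ⟨fun p => g (h (p.1, g⁻¹ p.2)), ?_, fun t => ?_, fun x => ?_, fun x => ?_⟩
  · exact g.continuous.comp (hc.comp (continuous_fst.prodMk ((g⁻¹).continuous.comp continuous_snd)))
  · obtain ⟨a, ha⟩ := hh t
    exact ⟨g * a * g⁻¹, fun x => by
      beta_reduce
      rw [Homeomorph.mul_apply, Homeomorph.mul_apply, ha]⟩
  · simp only [h0]
    exact g.apply_symm_apply x
  · simp only [h1]
    rfl

/-- The elements of the group `Homeo⁺(S)`. -/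
def OHomeo (C : Set ℂ) (hC : IsClosed C) : Type := HomeoPlus C hC

noncomputable instance (C : Set ℂ) (hC : IsClosed C) : Group (OHomeo C hC) :=
  (HomeoPlus C hC).toGroup

/-- The element `f` of `Homeo⁺(S)` as a homeomorphism. -/
def OHomeo.toHomeomorph {C : Set ℂ} {hC : IsClosed C} (f : OHomeo C hC) : Surf C ≃ₜ Surf C := f.1

/-- The element `f` of `Homeo⁺(S)` is isotopic to the identity. -/
def OHomeo.IsTrivial {C : Set ℂ} {hC : IsClosed C} (f : OHomeo C hC) : Prop :=
  IsotopicToId f.toHomeomorph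

theorem OHomeo.IsTrivial.mul {C : Set ℂ} {hC : IsClosed C} {f g : OHomeo C hC}
    (hf : f.IsTrivial) (hg : g.IsTrivial) : (f * g).IsTrivial := IsotopicToId.mul hf hg

theorem OHomeo.IsTrivial.one {C : Set ℂ} {hC : IsClosed C} : (1 : OHomeo C hC).IsTrivial :=
  IsotopicToId.one

theorem OHomeo.IsTrivial.inv {C : Set ℂ} {hC : IsClosed C} {f : OHomeo C hC}
    (hf : f.IsTrivial) : (f⁻¹).IsTrivial := IsotopicToId.inv hf

/-- The normal subgroup `Homeo₀(S)` of `Homeo⁺(S)`: the homeomorphisms isotopic to the identity. -/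
def HomeoZero (C : Set ℂ) (hC : IsClosed C) : Subgroup (OHomeo C hC) where
  carrier := {f | f.IsTrivial}
  mul_mem' := OHomeo.IsTrivial.mul
  one_mem' := OHomeo.IsTrivial.one
  inv_mem' := OHomeo.IsTrivial.inv

theorem homeoZero_normal (C : Set ℂ) (hC : IsClosed C) : (HomeoZero C hC).Normal :=
  ⟨fun _ hf g => IsotopicToId.conj hf g.toHomeomorph⟩

/-- The mapping class group `Map(S) = Homeo⁺(S) / Homeo₀(S)` of `S = ℂ ∖ C`. -/
def MapGroup (C : Set ℂ) (hC : IsClosed C) : Type := OHomeo C hC ⧸ HomeoZero C hC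

noncomputable instance (C : Set ℂ) (hC : IsClosed C) : Group (MapGroup C hC) :=
  @QuotientGroup.Quotient.group _ _ (HomeoZero C hC) (homeoZero_normal C hC)

/-- The homomorphism of `Homeo⁺(S)` to `Map(S)`. -/
noncomputable def toMapGroup (C : Set ℂ) (hC : IsClosed C) : OHomeo C hC →* MapGroup C hC :=
  @QuotientGroup.mk' _ _ (HomeoZero C hC) (homeoZero_normal C hC)

theorem qm_add {G : Type} [Group G] {φ ψ : G → ℝ} (h : IsHomogeneousQuasimorphism φ)
    (h' : IsHomogeneousQuasimorphism ψ) : IsHomogeneousQuasimorphism (φ + ψ) := by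
  obtain ⟨⟨D, hD⟩, h⟩ := h
  obtain ⟨⟨D', hD'⟩, h'⟩ := h'
  refine ⟨⟨D + D', fun g k => ?_⟩, fun g n => ?_⟩
  · have h1 := hD g k
    have h2 := hD' g k
    simp only [Pi.add_apply]
    rw [abs_le] at *
    constructor <;> linarith [h1.1, h1.2, h2.1, h2.2]
  · simp only [Pi.add_apply, h, h']
    ring

theorem qm_zero {G : Type} [Group G] : IsHomogeneousQuasimorphism (0 : G → ℝ) :=
  ⟨⟨0, fun g k => by simp⟩, fun g n => by simp⟩

theorem qm_smul {G : Type} [Group G] (c : ℝ) {φ : G → ℝ} (h : IsHomogeneousQuasimorphism φ) :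
    IsHomogeneousQuasimorphism (c • φ) := by
  obtain ⟨⟨D, hD⟩, h⟩ := h
  refine ⟨⟨|c| * D, fun g k => ?_⟩, fun g n => ?_⟩
  · simp only [Pi.smul_apply, smul_eq_mul]
    rw [← mul_sub, ← mul_sub, abs_mul]
    exact mul_le_mul_of_nonneg_left (hD g k) (abs_nonneg c)
  · simp only [Pi.smul_apply, smul_eq_mul, h]
    ring

/-- The vector space `Q(G)` of homogeneous quasimorphisms on the group `G`. -/
def Q (G : Type) [Group G] : Submodule ℝ (G → ℝ) where
  carrier := {φ | IsHomogeneousQuasimorphism φ}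
  add_mem' := qm_add
  zero_mem' := qm_zero
  smul_mem' := qm_smul

/-- `φ` is a homomorphism to the additive group of the real numbers. -/
def IsHom {G : Type} [Group G] (φ : G → ℝ) : Prop := ∀ g h : G, φ (g * h) = φ g + φ h

theorem isHom_add {G : Type} [Group G] {φ ψ : Q G} (h : IsHom (φ : G → ℝ))
    (h' : IsHom (ψ : G → ℝ)) : IsHom ((φ + ψ : Q G) : G → ℝ) := by
  intro g k
  simp only [Submodule.coe_add, Pi.add_apply, h g k, h' g k]
  ring

theorem isHom_zero {G : Type} [Group G] : IsHom ((0 : Q G) : G → ℝ) := by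
  intro g k
  simp

theorem isHom_smul {G : Type} [Group G] (c : ℝ) {φ : Q G} (h : IsHom (φ : G → ℝ)) :
    IsHom ((c • φ : Q G) : G → ℝ) := by
  intro g k
  simp only [Submodule.coe_smul, Pi.smul_apply, smul_eq_mul, h g k]
  ring

/-- The subspace `Hom(G, ℝ)` of `Q(G)`. -/
def HomR (G : Type) [Group G] : Submodule ℝ (Q G) where
  carrier := {φ | IsHom φ.1}
  add_mem' := isHom_add
  zero_mem' := isHom_zero
  smul_mem' := isHom_smul

/-- The vector space `Q(G) / Hom(G, ℝ)`. -/
def QTilde (G : Type) [Group G] : Type := Q G ⧸ HomR G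

noncomputable instance (G : Type) [Group G] : AddCommGroup (QTilde G) :=
  Submodule.Quotient.addCommGroup (HomR G)

noncomputable instance (G : Type) [Group G] : Module ℝ (QTilde G) :=
  Submodule.Quotient.module (HomR G)

end Pool.Agent.Helper60.MC
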