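import Mathlib
import Pool.Agent.Helper60.MC.Defs

/-!
# Homeomorphisms of the plane supported in the unit disc
-/

set_option autoImplicit false

namespace Pool.Agent.Helper60.MC

open Set Topology

/-- The standard loop is not homotopic to a constant loop. -/
theorem not_loopHomotopic_const (a : ℂ) : ¬ LoopHomotopic (fun u => (u : ℂ)) fun _ => a := by
  rintro ⟨K, hK, hne, h0, h1⟩
  beta_reduce at h0 h1
  let pr : ℝ → unitInterval := fun s => projIcc (0 : ℝ) 1 zero_le_one s
  have hpr : Continuous pr := continuous_projIcc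
  let f : C(ℝ × ℝ, ℂ) := ⟨fun p => K (pr p.1, Circle.exp p.2), by fun_prop⟩
  have hf : ∀ p, f p ∈ ({0}ᶜ : Set ℂ) := fun p => hne _
  obtain ⟨L, ⟨-, hL⟩, -⟩ := Complex.isCoveringMapOn_exp.existsUnique_continuousMap_lifts f
    (a₀ := (0, 0)) (e₀ := Complex.log (f (0, 0))) (Complex.exp_log (hne _)) hf
  have hL' : ∀ s t, Complex.exp (L (s, t)) = K (pr s, Circle.exp t) := fun s t =>
    congrFun hL (s, t)
  -- functions with constant exponential are constant
  have hconst : ∀ {X : Type} [TopologicalSpace X] [PreconnectedSpace X] (g : X → ℂ),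
      Continuous g → (∀ x y, Complex.exp (g x) = Complex.exp (g y)) → ∀ x y, g x = g y := by
    intro X _ _ g hg h x y
    exact Complex.isCoveringMap_exp.const_of_comp hg (fun a a' => Subtype.ext (h a a')) x y
  have hexp : ∀ t : ℝ, Circle.exp (t + 2 * Real.pi) = Circle.exp t := by
    intro t
    rw [Circle.exp_add, Circle.exp_two_pi, mul_one]
  have hd := hconst (fun p : ℝ × ℝ => L (p.1, p.2 + 2 * Real.pi) - L p) (by fun_prop) (by
    intro x y
    have : ∀ p : ℝ × ℝ, Complex.exp (L (p.1, p.2 + 2 * Real.pi) - L p) = 1 := by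
      intro p
      rw [Complex.exp_sub, hL', hexp, show p = (p.1, p.2) from rfl, hL', div_self (hne _)]
    rw [this, this])
  have hp0 : pr 0 = 0 := by
    apply Subtype.ext
    simp [pr]
  have hp1 : pr 1 = 1 := by
    apply Subtype.ext
    simp [pr]
  have e0 := hconst (fun t : ℝ => L (0, t) - t * Complex.I) (by fun_prop) (by
    intro x y
    have : ∀ t : ℝ, Complex.exp (L (0, t) - t * Complex.I) = 1 := by
      intro t
      rw [Complex.exp_sub, hL', hp0, h0, Circle.coe_exp, div_self (Complex.exp_ne_zero _)]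
    rw [this, this]) (2 * Real.pi) 0
  have e1 := hconst (fun t : ℝ => L (1, t)) (by fun_prop) (by
    intro x y
    rw [hL', hL', hp1, h1, h1]) (2 * Real.pi) 0
  have e2 := hd (0, 0) (1, 0)
  beta_reduce at e0 e1 e2
  simp only [zero_add] at e2
  rw [e1, sub_self, sub_eq_zero] at e2
  rw [e2] at e0
  simp at e0

/-- `a + b u` is homotopic to `u` if `|a| < b`. -/
theorem loopHomotopic_affine {a : ℂ} {b : ℝ} (h : ‖a‖ < b) :
    LoopHomotopic (fun u => a + b * u) fun u => (u : ℂ) := by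
  have hb : 0 < b := lt_of_le_of_lt (norm_nonneg a) h
  refine ⟨fun p => (1 - (p.1 : ℝ) : ℝ) * a + ((1 - (p.1 : ℝ)) * b + p.1 : ℝ) * p.2, by fun_prop,
    ?_, ?_, ?_⟩
  · rintro ⟨t, u⟩ h0
    beta_reduce at h0
    have h1 : ((1 - (t : ℝ) : ℝ) : ℂ) * a = -(((1 - (t : ℝ)) * b + t : ℝ) : ℂ) * u := by
      rw [← sub_eq_zero, ← h0]
      ring
    have h2 := congrArg norm h1
    rw [neg_mul, norm_neg, circle_smul_norm, norm_mul, Complex.norm_real, Real.norm_eq_abs] at h2
    have ht0 := t.2.1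
    have ht1 := t.2.2
    have h3 : 0 ≤ 1 - (t : ℝ) := by linarith
    have h4 : 0 ≤ (1 - (t : ℝ)) * b := mul_nonneg h3 hb.le
    rw [abs_of_nonneg h3, abs_of_nonneg (by linarith)] at h2
    have h5 : (1 - (t : ℝ)) * ‖a‖ ≤ (1 - (t : ℝ)) * b := mul_le_mul_of_nonneg_left h.le h3
    have h6 : (t : ℝ) = 0 := by linarith
    rw [h6] at h2
    simp at h2
    exact h.ne h2
  · intro u
    simp
  · intro u
    simp

/-- `a + b u` is null homotopic if `|a| > b`. -/
theorem loopHomotopic_affine_const {a : ℂ} {b : ℝ} (hb : 0 ≤ b) (h : b < ‖a‖) :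
    LoopHomotopic (fun u => a + b * u) fun _ => a := by
  refine ⟨fun p => a + ((1 - (p.1 : ℝ)) * b : ℝ) * p.2, by fun_prop, ?_, ?_, ?_⟩
  · rintro ⟨t, u⟩ h0
    beta_reduce at h0
    have h1 : a = -((((1 - (t : ℝ)) * b : ℝ) : ℂ) * u) := by
      rw [← sub_eq_zero, ← h0]
      ring
    have h2 := congrArg norm h1
    have ht0 := t.2.1
    have ht1 := t.2.2
    rw [norm_neg, circle_smul_norm, abs_of_nonneg (mul_nonneg (by linarith) hb)] at h2
    nlinarith
  · intro u
    simp
  · intro u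
    simp

/-- A homeomorphism of the plane which is the identity outside the unit disc has degree one: for a
circle `q + ρ u` around `c` the loop `F (q + ρ u) - F c` is homotopic to the standard loop. -/
theorem degree_one {F : ℂ ≃ₜ ℂ} (hF : ∀ w, 1 ≤ ‖w‖ → F w = w) {c q : ℂ} {ρ : ℝ}
    (hρ : ‖q - c‖ < ρ) : LoopHomotopic (fun u => F (q + ρ * u) - F c) fun u => (u : ℂ) := by
  have hρ0 : 0 < ρ := lt_of_le_of_lt (norm_nonneg _) hρ
  set δ : ℝ := ρ - ‖q - c‖ with hδ
  have hδ0 : 0 < δ := by linarith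
  set Λ : ℝ := (1 + ‖c‖ + ‖c - F c‖ + 1) / δ + 1 with hΛ
  have hnn : 0 ≤ (1 + ‖c‖ + ‖c - F c‖ + 1) / δ := by positivity
  have hΛ1 : 1 ≤ Λ := by linarith
  have hΛδ : 1 + ‖c‖ + ‖c - F c‖ + 1 ≤ Λ * δ := by
    rw [hΛ, add_mul, div_mul_cancel₀ _ hδ0.ne']
    linarith
  have hγ : ∀ u : Circle, δ ≤ ‖q + ρ * u - c‖ := by
    intro u
    have h1 : ‖(ρ : ℂ) * u‖ ≤ ‖q + ρ * u - c‖ + ‖q - c‖ := by
      calc ‖(ρ : ℂ) * u‖ = ‖(q + ρ * u - c) - (q - c)‖ := by congr 1; ring
        _ ≤ _ := norm_sub_le _ _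
    rw [circle_smul_norm, abs_of_pos hρ0] at h1
    linarith
  have step1 : LoopHomotopic (fun u => F (q + ρ * u) - F c)
      fun u => F (c + Λ * (q + ρ * u - c)) - F c := by
    refine ⟨fun p => F (c + (1 + (p.1 : ℝ) * (Λ - 1) : ℝ) * (q + ρ * p.2 - c)) - F c, by fun_prop,
      ?_, ?_, ?_⟩
    · rintro ⟨t, u⟩ h0
      beta_reduce at h0
      have h1 := F.injective (sub_eq_zero.1 h0)
      have h2 : (((1 + (t : ℝ) * (Λ - 1) : ℝ) : ℂ)) * (q + ρ * u - c) = 0 := by
        have := congrArg (fun w => w - c) h1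
        simpa using this
      have ht0 := t.2.1
      have h3 : (0 : ℝ) < 1 + (t : ℝ) * (Λ - 1) := by
        have := mul_nonneg ht0 (by linarith : 0 ≤ Λ - 1)
        linarith
      rcases mul_eq_zero.1 h2 with h4 | h4
      · exact h3.ne' (by exact_mod_cast h4)
      · have := hγ u
        rw [h4, norm_zero] at this
        linarith
    · intro u
      simp
    · intro u
      simp
  have step2 : (fun u : Circle => F (c + Λ * (q + ρ * u - c)) - F c) =
      fun u : Circle => (c - F c + Λ * (q - c)) + ((Λ * ρ : ℝ) : ℂ) * u := by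
    ext u
    rw [hF]
    · push_cast
      ring
    · have h1 : ‖(Λ : ℂ) * (q + ρ * u - c)‖ ≤ ‖c + Λ * (q + ρ * u - c)‖ + ‖c‖ := by
        calc ‖(Λ : ℂ) * (q + ρ * u - c)‖ = ‖(c + Λ * (q + ρ * u - c)) - c‖ := by congr 1; ring
          _ ≤ _ := norm_sub_le _ _
      rw [norm_mul, Complex.norm_real, Real.norm_eq_abs, abs_of_pos (by linarith)] at h1
      have h2 : Λ * δ ≤ Λ * ‖q + ρ * u - c‖ := mul_le_mul_of_nonneg_left (hγ u) (by linarith)
      have := norm_nonneg (c - F c)
      linarith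
  rw [step2] at step1
  refine step1.trans (loopHomotopic_affine ?_)
  calc ‖c - F c + Λ * (q - c)‖ ≤ ‖c - F c‖ + ‖(Λ : ℂ) * (q - c)‖ := norm_add_le _ _
    _ = ‖c - F c‖ + Λ * ‖q - c‖ := by
        rw [norm_mul, Complex.norm_real, Real.norm_eq_abs, abs_of_pos (by linarith)]
    _ < Λ * ρ := by
        have : Λ * δ = Λ * ρ - Λ * ‖q - c‖ := by rw [hδ]; ring
        have := norm_nonneg c
        linarith

/-- The group of the homeomorphisms of the plane which preserve `C` and are the identity outside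
the unit disc. -/
def DiscGroup (C : Set ℂ) : Subgroup (ℂ ≃ₜ ℂ) where
  carrier := {F | (∀ z, F z ∈ C ↔ z ∈ C) ∧ ∀ w, 1 ≤ ‖w‖ → F w = w}
  mul_mem' := by
    rintro F G ⟨hF, hF'⟩ ⟨hG, hG'⟩
    exact ⟨fun z => by rw [Homeomorph.mul_apply, hF, hG], fun w hw => by
      rw [Homeomorph.mul_apply, hG' w hw, hF' w hw]⟩
  one_mem' := ⟨fun _ => Iff.rfl, fun _ _ => rfl⟩
  inv_mem' := by
    rintro F ⟨hF, hF'⟩
    refine ⟨fun z => ?_, fun w hw => ?_⟩
    · rw [← hF (F⁻¹ z)]
      show F (F.symm z) ∈ C ↔ _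
      rw [F.apply_symm_apply]
    · rw [Homeomorph.inv_apply, Homeomorph.symm_apply_eq, hF' w hw]

/-- the restriction to the complement of `C` -/
noncomputable def restr {C : Set ℂ} (F : DiscGroup C) : Surf C ≃ₜ Surf C where
  toFun z := ⟨F.1 z, fun h => z.2 ((F.2.1 z).1 h)⟩
  invFun z := ⟨(F⁻¹).1 z, fun h => z.2 (((F⁻¹).2.1 z).1 h)⟩
  left_inv z := Subtype.ext (F.1.symm_apply_apply z)
  right_inv z := Subtype.ext (F.1.apply_symm_apply z)
  continuous_toFun := by
    refine Continuous.subtype_mk ?_ _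
    exact F.1.continuous.comp continuous_subtype_val
  continuous_invFun := by
    refine Continuous.subtype_mk ?_ _
    exact (F⁻¹).1.continuous.comp continuous_subtype_val

theorem val_restr {C : Set ℂ} (F : DiscGroup C) {z : ℂ} (hz : z ∉ C) : val (restr F) z = F.1 z := by
  rw [val_of_notMem _ hz]; rfl

theorem restr_degree {C : Set ℂ} (F : DiscGroup C) : LocalDegreeOne (restr F) := by
  intro x r hr h
  have hx : x ∉ C := h x (by simp [hr.le])
  have hmem : ∀ u : Circle, x + (r : ℂ) * u ∉ C := by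
    intro u
    apply h
    rw [dist_eq_norm, add_sub_cancel_left, circle_smul_norm, abs_of_pos hr]
  have e : (fun u : Circle => val (restr F) (x + r * u) - val (restr F) x) =
      fun u : Circle => F.1 (x + r * u) - F.1 x := by
    ext u
    rw [val_restr F (hmem u), val_restr F hx]
  rw [e]
  exact degree_one F.2.2 (by simpa using hr)

theorem restr_mul {C : Set ℂ} (F G : DiscGroup C) : restr (F * G) = restr F * restr G := rfl

theorem restr_one {C : Set ℂ} : restr (1 : DiscGroup C) = 1 := rfl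

/-- the homomorphism to `Homeo⁺(S)` -/
noncomputable def toPlus (C : Set ℂ) (hC : IsClosed C) : DiscGroup C →* OHomeo C hC where
  toFun F := ⟨restr F, restr_degree F, by
    have : (restr F)⁻¹ = restr F⁻¹ := rfl
    rw [this]
    exact restr_degree _⟩
  map_one' := rfl
  map_mul' _ _ := rfl

/-- the homomorphism to the mapping class group -/
noncomputable def cls (C : Set ℂ) (hC : IsClosed C) : DiscGroup C →* MapGroup C hC :=
  (toMapGroup C hC).comp (toPlus C hC)

/-- Arbitrarily small circles around the points of `C` in the complement of `C`. -/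
def SmallCircles (C : Set ℂ) : Prop :=
  ∀ c ∈ C, ∀ ε > 0, ∃ (q : ℂ) (ρ : ℝ), ‖q - c‖ < ρ ∧ ρ < ε ∧ ∀ u : Circle, q + ρ * u ∉ C

/-- The action on `C` is determined by the mapping class. -/
theorem fix_of_cls_eq_one {C : Set ℂ} {hC : IsClosed C} (hs : SmallCircles C) {F : DiscGroup C}
    (h : cls C hC F = 1) {c : ℂ} (hc : c ∈ C) : F.1 c = c := by
  by_contra hne
  have h1 : IsotopicToId (restr F) := by
    have := homeoZero_normal C hC
    exact (QuotientGroup.eq_one_iff (toPlus C hC F)).1 h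
  obtain ⟨k, hk, -, k0, k1⟩ := h1
  have hd : 0 < ‖F.1 c - c‖ := norm_pos_iff.2 (sub_ne_zero.2 hne)
  obtain ⟨q, ρ, hq, hρ, hcirc⟩ := hs c hc (‖F.1 c - c‖ / 2) (by positivity)
  have hρ0 : 0 < ρ := lt_of_le_of_lt (norm_nonneg _) hq
  have hFc : F.1 c ∈ C := (F.2.1 c).2 hc
  have step1 : LoopHomotopic (fun u : Circle => (q - F.1 c) + ρ * u)
      fun u => F.1 (q + ρ * u) - F.1 c := by
    refine ⟨fun p => (k (p.1, ⟨q + ρ * p.2, hcirc p.2⟩) : ℂ) - F.1 c, by fun_prop, ?_, ?_, ?_⟩
    · intro p h2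
      have h3 := sub_eq_zero.1 h2
      exact (k (p.1, ⟨q + ρ * p.2, hcirc p.2⟩)).2 (h3 ▸ hFc)
    · intro u
      beta_reduce
      rw [k0]
      ring
    · intro u
      beta_reduce
      rw [k1]
      rfl
  have step2 := degree_one F.2.2 hq
  have step3 : ρ < ‖q - F.1 c‖ := by
    have : ‖F.1 c - c‖ ≤ ‖q - c‖ + ‖q - F.1 c‖ := by
      calc ‖F.1 c - c‖ = ‖(q - c) - (q - F.1 c)‖ := by congr 1; ring
        _ ≤ _ := norm_sub_le _ _
    linarith
  exact not_loopHomotopic_const _
    (((step1.trans step2).symm).trans (loopHomotopic_affine_const hρ0.le step3))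

end Pool.Agent.Helper60.MC
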