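import Mathlib
import Pool.Agent.Helper60.MC.Plane

/-!
# Extension of homeomorphisms of bounded displacement to the circle at infinity
-/

set_option autoImplicit false

namespace Pool.Agent.Helper60.MC

open Set Topology

/-- the homeomorphism of the plane to the unit disc -/
noncomputable def Phi (z : ℂ) : ℂ := z / ((1 + ‖z‖ : ℝ) : ℂ)

/-- the inverse homeomorphism -/
noncomputable def Psi (w : ℂ) : ℂ := w / ((1 - ‖w‖ : ℝ) : ℂ)

theorem one_add_norm_pos (z : ℂ) : (0 : ℝ) < 1 + ‖z‖ := by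
  have := norm_nonneg z
  linarith

theorem norm_Phi (z : ℂ) : ‖Phi z‖ = ‖z‖ / (1 + ‖z‖) := by
  unfold Phi
  rw [norm_div, Complex.norm_real, Real.norm_eq_abs, abs_of_pos (one_add_norm_pos z)]

theorem norm_Phi_lt (z : ℂ) : ‖Phi z‖ < 1 := by
  rw [norm_Phi, div_lt_one (one_add_norm_pos z)]
  linarith

theorem one_sub_norm_Phi (z : ℂ) : 1 - ‖Phi z‖ = 1 / (1 + ‖z‖) := by
  rw [norm_Phi]
  have := one_add_norm_pos z
  field_simp
  ring

theorem Psi_Phi (z : ℂ) : Psi (Phi z) = z := by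
  unfold Psi
  rw [one_sub_norm_Phi, Phi]
  have h : ((1 + ‖z‖ : ℝ) : ℂ) ≠ 0 := by exact_mod_cast (one_add_norm_pos z).ne'
  push_cast at h ⊢
  field_simp

theorem Phi_Psi {w : ℂ} (hw : ‖w‖ < 1) : Phi (Psi w) = w := by
  have h1 : (0 : ℝ) < 1 - ‖w‖ := by linarith
  have h2 : ‖Psi w‖ = ‖w‖ / (1 - ‖w‖) := by
    unfold Psi
    rw [norm_div, Complex.norm_real, Real.norm_eq_abs, abs_of_pos h1]
  have h3 : (1 : ℝ) + ‖Psi w‖ = 1 / (1 - ‖w‖) := by
    rw [h2]
    field_simp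
    ring
  unfold Phi
  rw [h3, Psi]
  have h4 : ((1 - ‖w‖ : ℝ) : ℂ) ≠ 0 := by exact_mod_cast h1.ne'
  push_cast at h4 ⊢
  field_simp

theorem continuous_Phi : Continuous Phi := by
  unfold Phi
  refine continuous_id.div (by fun_prop) fun z => ?_
  exact_mod_cast (one_add_norm_pos z).ne'

theorem continuousOn_Psi : ContinuousOn Psi {w | ‖w‖ < 1} := by
  unfold Psi
  refine ContinuousOn.div continuousOn_id (by fun_prop) fun w hw => ?_
  have hw' : ‖w‖ < 1 := hw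
  exact_mod_cast (by linarith : (0 : ℝ) < 1 - ‖w‖).ne'

theorem dist_Phi_le (z z' : ℂ) : ‖Phi z' - Phi z‖ ≤ 2 * ‖z' - z‖ * (1 - ‖Phi z‖) := by
  have h1 := one_add_norm_pos z
  have h2 := one_add_norm_pos z'
  have h1' : ((1 + ‖z‖ : ℝ) : ℂ) ≠ 0 := by exact_mod_cast h1.ne'
  have h2' : ((1 + ‖z'‖ : ℝ) : ℂ) ≠ 0 := by exact_mod_cast h2.ne'
  have e : Phi z' - Phi z = (z' - z) / ((1 + ‖z‖ : ℝ) : ℂ) +
      z' * (((‖z‖ - ‖z'‖ : ℝ) : ℂ)) / (((1 + ‖z'‖ : ℝ) : ℂ) * ((1 + ‖z‖ : ℝ) : ℂ)) := by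
    unfold Phi
    push_cast at h1' h2' ⊢
    field_simp
    ring
  have hz' : ‖z'‖ / (1 + ‖z'‖) ≤ 1 := by
    rw [div_le_one h2]
    linarith
  have h3 : |‖z‖ - ‖z'‖| ≤ ‖z' - z‖ := by
    rw [norm_sub_rev]
    exact abs_norm_sub_norm_le z z'
  rw [e, one_sub_norm_Phi]
  calc _ ≤ ‖(z' - z) / ((1 + ‖z‖ : ℝ) : ℂ)‖ +
      ‖z' * (((‖z‖ - ‖z'‖ : ℝ) : ℂ)) / (((1 + ‖z'‖ : ℝ) : ℂ) * ((1 + ‖z‖ : ℝ) : ℂ))‖ :=
        norm_add_le _ _
    _ = ‖z' - z‖ / (1 + ‖z‖) + (‖z'‖ / (1 + ‖z'‖)) * (|‖z‖ - ‖z'‖| / (1 + ‖z‖)) := by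
        rw [norm_div, norm_div, norm_mul, norm_mul, Complex.norm_real, Complex.norm_real,
          Complex.norm_real, Real.norm_eq_abs, Real.norm_eq_abs, Real.norm_eq_abs,
          abs_of_pos h1, abs_of_pos h2]
        field_simp
    _ ≤ ‖z' - z‖ / (1 + ‖z‖) + 1 * (‖z' - z‖ / (1 + ‖z‖)) := by
        gcongr
    _ = 2 * ‖z' - z‖ * (1 / (1 + ‖z‖)) := by ring

/-- the extension of a map to the circle at infinity -/
noncomputable def ext (F : ℂ → ℂ) (w : ℂ) : ℂ :=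
  open Classical in if ‖w‖ < 1 then Phi (F (Psi w)) else w

theorem ext_of_lt (F : ℂ → ℂ) {w : ℂ} (hw : ‖w‖ < 1) : ext F w = Phi (F (Psi w)) := if_pos hw

theorem ext_of_le (F : ℂ → ℂ) {w : ℂ} (hw : 1 ≤ ‖w‖) : ext F w = w := if_neg (not_lt.2 hw)

theorem ext_Phi (F : ℂ → ℂ) (z : ℂ) : ext F (Phi z) = Phi (F z) := by
  rw [ext_of_lt F (norm_Phi_lt z), Psi_Phi]

theorem ext_comp (F G : ℂ → ℂ) (w : ℂ) : ext F (ext G w) = ext (fun z => F (G z)) w := by
  rcases lt_or_ge ‖w‖ 1 with h | h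
  · rw [ext_of_lt G h, ext_Phi, ext_of_lt _ h]
  · rw [ext_of_le G h, ext_of_le F h, ext_of_le _ h]

theorem ext_id (w : ℂ) : ext (fun z => z) w = w := by
  rcases lt_or_ge ‖w‖ 1 with h | h
  · rw [ext_of_lt _ h, Phi_Psi h]
  · rw [ext_of_le _ h]

theorem ext_bound {F : ℂ → ℂ} {M : ℝ} (hM : ∀ z, ‖F z - z‖ ≤ M) (w : ℂ) :
    ‖ext F w - w‖ ≤ 2 * M * max 0 (1 - ‖w‖) := by
  have hM0 : 0 ≤ M := (norm_nonneg _).trans (hM 0)
  rcases lt_or_ge ‖w‖ 1 with h | h
  · have h1 := dist_Phi_le (Psi w) (F (Psi w))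
    rw [Phi_Psi h] at h1
    rw [ext_of_lt F h, max_eq_right (by linarith)]
    refine h1.trans ?_
    have := hM (Psi w)
    have h2 : 0 ≤ 1 - ‖w‖ := by linarith
    gcongr
  · rw [ext_of_le F h, sub_self, norm_zero]
    positivity

theorem ext_continuous {F : ℂ → ℂ} (hF : Continuous F) {M : ℝ} (hM : ∀ z, ‖F z - z‖ ≤ M) :
    Continuous (ext F) := by
  rw [continuous_iff_continuousAt]
  intro w
  rcases lt_or_ge ‖w‖ 1 with h | h
  · have ho : IsOpen {w : ℂ | ‖w‖ < 1} := isOpen_lt continuous_norm continuous_const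
    have h1 : ContinuousOn (fun w => Phi (F (Psi w))) {w : ℂ | ‖w‖ < 1} :=
      (continuous_Phi.comp hF).comp_continuousOn continuousOn_Psi
    have h2 : ContinuousAt (fun w => Phi (F (Psi w))) w := h1.continuousAt (ho.mem_nhds h)
    refine h2.congr ?_
    filter_upwards [ho.mem_nhds h] with v hv
    exact (ext_of_lt F hv).symm
  · have h1 : Filter.Tendsto (fun v => 2 * M * max 0 (1 - ‖v‖)) (𝓝 w) (𝓝 0) := by
      have : Continuous fun v : ℂ => 2 * M * max 0 (1 - ‖v‖) := by fun_prop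
      have h2 := this.tendsto w
      rwa [max_eq_left (by linarith), mul_zero] at h2
    have h2 : Filter.Tendsto (fun v => ext F v - v) (𝓝 w) (𝓝 0) :=
      squeeze_zero_norm (ext_bound hM) h1
    have h3 := h2.add (Filter.tendsto_id (x := 𝓝 w))
    simp only [sub_add_cancel, id, zero_add] at h3
    show Filter.Tendsto (ext F) (𝓝 w) (𝓝 (ext F w))
    rw [ext_of_le F h]
    exact h3

/-- The group of the homeomorphisms of the plane which preserve `Z` and which are a translation by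
`4 k`, `k` an integer, outside a bounded set. -/
def TransGroup (Z : Set ℂ) : Subgroup (ℂ ≃ₜ ℂ) where
  carrier := {F | (∀ z, F z ∈ Z ↔ z ∈ Z) ∧ ∃ (k : ℤ) (R : ℝ), ∀ z, R ≤ ‖z‖ → F z = z + 4 * k}
  mul_mem' := by
    rintro F G ⟨hF, k, R, hk⟩ ⟨hG, l, S, hl⟩
    refine ⟨fun z => by rw [Homeomorph.mul_apply, hF, hG], k + l, max S (R + ‖(4 * l : ℂ)‖),
      fun z hz => ?_⟩
    rw [Homeomorph.mul_apply, hl z ((le_max_left _ _).trans hz), hk]
    · push_cast; ring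
    · have h1 := (le_max_right _ _).trans hz
      have h2 : ‖z‖ ≤ ‖z + 4 * l‖ + ‖(4 * l : ℂ)‖ := by
        calc ‖z‖ = ‖(z + 4 * l) - 4 * l‖ := by congr 1; ring
          _ ≤ _ := norm_sub_le _ _
      linarith
  one_mem' := ⟨fun _ => Iff.rfl, 0, 0, fun z _ => by simp⟩
  inv_mem' := by
    rintro F ⟨hF, k, R, hk⟩
    refine ⟨fun z => ?_, -k, R + ‖(4 * k : ℂ)‖, fun z hz => ?_⟩
    · rw [← hF (F⁻¹ z)]
      show F (F.symm z) ∈ Z ↔ _
      rw [F.apply_symm_apply]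
    · rw [Homeomorph.inv_apply, Homeomorph.symm_apply_eq, hk]
      · push_cast; ring
      · have h2 : ‖z‖ ≤ ‖z + 4 * ((-k : ℤ) : ℂ)‖ + ‖(4 * k : ℂ)‖ := by
          calc ‖z‖ = ‖(z + 4 * ((-k : ℤ) : ℂ)) + 4 * k‖ := by congr 1; push_cast; ring
            _ ≤ _ := norm_add_le _ _
        linarith

theorem bounded_displacement {Z : Set ℂ} (F : TransGroup Z) : ∃ M, ∀ z, ‖F.1 z - z‖ ≤ M := by
  obtain ⟨-, k, R, hk⟩ := F.2
  obtain ⟨M, hM⟩ := (isCompact_closedBall (0 : ℂ) R).exists_bound_of_continuousOn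
    (f := fun z => F.1 z - z) (F.1.continuous.sub continuous_id).continuousOn
  refine ⟨max M ‖(4 * k : ℂ)‖, fun z => ?_⟩
  rcases le_or_gt R ‖z‖ with h | h
  · rw [hk z h, add_sub_cancel_left]
    exact le_max_right _ _
  · exact (hM z (by rw [mem_closedBall_zero_iff]; exact h.le)).trans (le_max_left _ _)

/-- the image of `Z` in the disc together with the limit points `1` and `-1` -/
def DiscSet (Z : Set ℂ) : Set ℂ := {w | w.im = 0 ∧ ‖w‖ ≤ 1 ∧ (‖w‖ < 1 → Psi w ∈ Z)}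

theorem Psi_im (w : ℂ) : (Psi w).im = w.im / (1 - ‖w‖) := by
  unfold Psi
  rw [Complex.div_ofReal_im]

theorem mem_discSet_of_lt {Z : Set ℂ} (hZ : ∀ z ∈ Z, z.im = 0) {w : ℂ} (hw : ‖w‖ < 1) :
    w ∈ DiscSet Z ↔ Psi w ∈ Z := by
  constructor
  · rintro ⟨-, -, h⟩
    exact h hw
  · intro h
    refine ⟨?_, hw.le, fun _ => h⟩
    have h1 := hZ _ h
    rw [Psi_im] at h1
    rcases div_eq_zero_iff.1 h1 with h2 | h2
    · exact h2
    · linarith

theorem Phi_mem_discSet {Z : Set ℂ} (hZ : ∀ z ∈ Z, z.im = 0) {z : ℂ} :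
    Phi z ∈ DiscSet Z ↔ z ∈ Z := by
  rw [mem_discSet_of_lt hZ (norm_Phi_lt z), Psi_Phi]

/-- the extension to the disc as a homomorphism -/
noncomputable def extHom (Z : Set ℂ) (hZ : ∀ z ∈ Z, z.im = 0) :
    TransGroup Z →* DiscGroup (DiscSet Z) where
  toFun F := ⟨
    { toFun := ext F.1
      invFun := ext (F⁻¹).1
      left_inv := fun w => by
        rw [ext_comp]
        have : (fun z => (F⁻¹).1 (F.1 z)) = fun z => z := by
          ext z
          exact F.1.symm_apply_apply z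
        rw [this, ext_id]
      right_inv := fun w => by
        rw [ext_comp]
        have : (fun z => F.1 ((F⁻¹).1 z)) = fun z => z := by
          ext z
          exact F.1.apply_symm_apply z
        rw [this, ext_id]
      continuous_toFun := by
        obtain ⟨M, hM⟩ := bounded_displacement F
        exact ext_continuous F.1.continuous hM
      continuous_invFun := by
        obtain ⟨M, hM⟩ := bounded_displacement F⁻¹
        exact ext_continuous (F⁻¹).1.continuous hM }, by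
    refine ⟨fun w => ?_, fun w hw => ext_of_le _ hw⟩
    show ext F.1 w ∈ _ ↔ _
    rcases lt_or_ge ‖w‖ 1 with h | h
    · rw [ext_of_lt _ h, Phi_mem_discSet hZ, F.2.1, mem_discSet_of_lt hZ h]
    · rw [ext_of_le _ h]⟩
  map_one' := by
    apply Subtype.ext
    ext w
    exact ext_id w
  map_mul' F G := by
    apply Subtype.ext
    ext w
    exact (ext_comp F.1 G.1 w).symm

theorem extHom_apply {Z : Set ℂ} (hZ : ∀ z ∈ Z, z.im = 0) (F : TransGroup Z) (w : ℂ) :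
    (extHom Z hZ F).1 w = ext F.1 w := rfl

/-- If the mapping class of `F` is trivial then `F` is the identity on `Z`. -/
theorem fix_of_cls {Z : Set ℂ} (hZ : ∀ z ∈ Z, z.im = 0) {hC : IsClosed (DiscSet Z)}
    (hs : SmallCircles (DiscSet Z)) {F : TransGroup Z}
    (h : cls (DiscSet Z) hC (extHom Z hZ F) = 1) {z : ℂ} (hz : z ∈ Z) : F.1 z = z := by
  have h1 := fix_of_cls_eq_one hs h ((Phi_mem_discSet hZ).2 hz)
  rw [extHom_apply, ext_Phi] at h1
  have h2 := congrArg Psi h1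
  rwa [Psi_Phi, Psi_Phi] at h2

/-- commuting homeomorphisms -/
theorem commute_of_disjoint {a b : ℂ ≃ₜ ℂ} {A B : Set ℂ} (ha : ∀ z, z ∉ A → a z = z)
    (hb : ∀ z, z ∉ B → b z = z) (hAB : Disjoint A B) : a * b = b * a := by
  ext z
  rw [Homeomorph.mul_apply, Homeomorph.mul_apply]
  by_cases hz : z ∈ A
  · have hzB : z ∉ B := fun h => Set.disjoint_left.1 hAB hz h
    rw [hb z hzB]
    by_cases h : a z ∈ A
    · exact (hb _ fun h' => Set.disjoint_left.1 hAB h h').symm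
    · have h1 : a z = z := a.injective (ha _ h)
      rw [h1, hb z hzB]
  · rw [ha z hz]
    by_cases h : b z ∈ A
    · have hB : b z ∉ B := fun h' => Set.disjoint_left.1 hAB h h'
      have h1 : b z = z := b.injective (hb _ hB)
      rw [h1, ha z hz]
    · exact ha _ h

end Pool.Agent.Helper60.MC
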