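import Mathlib
import Pool.Agent.Helper60.MC.Ext

/-!
# A self-similar Cantor set and homeomorphisms preserving it
-/

set_option autoImplicit false

namespace Pool.Agent.Helper60.MC

open Set Topology MeasureTheory
open scoped Pointwise

/-- the sign -/
def sg (b : Bool) : ℝ := if b then 1 else -1

theorem abs_sg (b : Bool) : |sg b| = 1 := by
  cases b <;> simp [sg]

theorem sg_not (b : Bool) : sg (!b) = - sg b := by
  cases b <;> simp [sg]

/-- the parametrisation of the Cantor set -/
noncomputable def X (e : ℕ → Bool) : ℝ := ∑' n : ℕ, sg (e n) * (1 / 5) ^ n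

theorem summable_X (e : ℕ → Bool) : Summable fun n : ℕ => sg (e n) * (1 / 5 : ℝ) ^ n := by
  refine Summable.of_norm_bounded (g := fun n : ℕ => (1 / 5 : ℝ) ^ n)
    (summable_geometric_of_lt_one (by norm_num) (by norm_num)) fun n => ?_
  rw [norm_mul, Real.norm_eq_abs, abs_sg, one_mul, Real.norm_eq_abs, abs_of_pos (by positivity)]

theorem X_succ (e : ℕ → Bool) : X e = sg (e 0) + 1 / 5 * X fun n => e (n + 1) := by
  unfold X
  rw [(summable_X e).tsum_eq_zero_add, ← tsum_mul_left]
  simp only [pow_zero, mul_one, add_right_inj]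
  congr 1
  ext n
  rw [pow_succ]
  ring

theorem abs_X_le (e : ℕ → Bool) : |X e| ≤ 5 / 4 := by
  have h1 : ∀ n : ℕ, ‖sg (e n) * (1 / 5 : ℝ) ^ n‖ ≤ (1 / 5 : ℝ) ^ n := fun n => by
    rw [norm_mul, Real.norm_eq_abs, abs_sg, one_mul, Real.norm_eq_abs, abs_of_pos (by positivity)]
  have h2 := tsum_of_norm_bounded (hasSum_geometric_of_lt_one (r := (1 / 5 : ℝ)) (by norm_num)
    (by norm_num)) h1
  rw [Real.norm_eq_abs] at h2
  unfold X
  refine h2.trans ?_
  norm_num

theorem X_not (e : ℕ → Bool) : X (fun n => !e n) = - X e := by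
  unfold X
  rw [← tsum_neg]
  congr 1
  ext n
  rw [sg_not]
  ring

theorem continuous_X : Continuous X := by
  unfold X
  refine continuous_tsum (u := fun n : ℕ => (1 / 5 : ℝ) ^ n) (fun n => ?_)
    (summable_geometric_of_lt_one (by norm_num) (by norm_num)) fun n e => ?_
  · refine Continuous.mul ?_ continuous_const
    have : Continuous sg := continuous_of_discreteTopology
    exact this.comp (continuous_apply n)
  · rw [norm_mul, Real.norm_eq_abs, abs_sg, one_mul, Real.norm_eq_abs, abs_of_pos (by positivity)]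

/-- prepend a letter -/
def cons (b : Bool) (e : ℕ → Bool) : ℕ → Bool := fun n => Nat.casesOn n b e

theorem X_cons (b : Bool) (e : ℕ → Bool) : X (cons b e) = sg b + 1 / 5 * X e := by
  rw [X_succ]
  rfl

/-- changing one letter changes the value -/
theorem exists_near (e : ℕ → Bool) {ε : ℝ} (hε : 0 < ε) : ∃ e', X e' ≠ X e ∧ |X e' - X e| < ε := by
  obtain ⟨n, hn⟩ := exists_pow_lt_of_lt_one (show (0 : ℝ) < ε / 2 by positivity)
    (show (1 / 5 : ℝ) < 1 by norm_num)
  have key : ∀ (n : ℕ) (e : ℕ → Bool), ∃ e', X e' ≠ X e ∧ |X e' - X e| ≤ 2 * (1 / 5) ^ n := by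
    intro n
    induction n with
    | zero =>
      intro e
      have h1 : ∀ b, X (cons b fun k => e (k + 1)) = sg b + 1 / 5 * X fun k => e (k + 1) :=
        fun b => X_cons _ _
      refine ⟨cons (!e 0) fun k => e (k + 1), ?_, ?_⟩
      · rw [h1, X_succ e, sg_not]
        intro h
        have h2 : sg (e 0) = 0 := by linarith
        have := abs_sg (e 0)
        rw [h2] at this
        simp at this
      · rw [h1, X_succ e, sg_not]
        have : (-sg (e 0) + 1 / 5 * X fun k => e (k + 1)) -
            (sg (e 0) + 1 / 5 * X fun k => e (k + 1)) = -(2 * sg (e 0)) := by ring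
        rw [this, abs_neg, abs_mul, abs_sg]
        norm_num
    | succ n ih =>
      intro e
      obtain ⟨e', h1, h2⟩ := ih fun k => e (k + 1)
      refine ⟨cons (e 0) e', ?_, ?_⟩
      · rw [X_cons, X_succ e]
        intro h
        apply h1
        linarith
      · rw [X_cons, X_succ e]
        have : (sg (e 0) + 1 / 5 * X e') - (sg (e 0) + 1 / 5 * X fun k => e (k + 1)) =
            1 / 5 * (X e' - X fun k => e (k + 1)) := by ring
        rw [this, abs_mul, abs_of_pos (show (0 : ℝ) < 1 / 5 by norm_num), pow_succ]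
        linarith
  obtain ⟨e', h1, h2⟩ := key n e
  exact ⟨e', h1, lt_of_le_of_lt h2 (by linarith)⟩

/-- the set `4 ℤ + range X` -/
def ZR : Set ℝ := {x | ∃ (n : ℤ) (e : ℕ → Bool), x = 4 * n + X e}

/-- the set `4 ℤ + range X` in the plane -/
def ZC : Set ℂ := {z | ∃ (n : ℤ) (e : ℕ → Bool), z = ((4 * n + X e : ℝ) : ℂ)}

theorem ZC_im : ∀ z ∈ ZC, z.im = 0 := by
  rintro z ⟨n, e, rfl⟩
  exact Complex.ofReal_im _

theorem ofReal_mem_ZC {x : ℝ} : (x : ℂ) ∈ ZC ↔ x ∈ ZR := by
  constructor
  · rintro ⟨n, e, h⟩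
    exact ⟨n, e, Complex.ofReal_injective h⟩
  · rintro ⟨n, e, rfl⟩
    exact ⟨n, e, rfl⟩

theorem isClosed_ZC : IsClosed ZC := by
  have e : ZC = ⋃ n : ℤ, {z | ∃ e : ℕ → Bool, z = ((4 * n + X e : ℝ) : ℂ)} := by
    ext z
    simp [ZC]
  rw [e]
  apply LocallyFinite.isClosed_iUnion
  · intro z
    refine ⟨Metric.ball z 1, Metric.ball_mem_nhds z one_pos, ?_⟩
    refine (Set.finite_Icc (⌊(z.re - 4) / 4⌋ : ℤ) ⌈(z.re + 4) / 4⌉).subset ?_
    rintro n ⟨w, ⟨e, rfl⟩, hw⟩
    rw [Metric.mem_ball, dist_eq_norm] at hw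
    have h1 : |4 * (n : ℝ) + X e - z.re| < 1 := by
      have := Complex.abs_re_le_norm (((4 * n + X e : ℝ) : ℂ) - z)
      rw [Complex.sub_re, Complex.ofReal_re] at this
      exact lt_of_le_of_lt this hw
    have h2 := abs_X_le e
    rw [abs_lt] at h1
    rw [abs_le] at h2
    constructor
    · have : (⌊(z.re - 4) / 4⌋ : ℝ) ≤ n := by
        refine (Int.floor_le _).trans ?_
        rw [div_le_iff₀ (by norm_num)]
        linarith [h1.1, h2.2]
      exact_mod_cast this
    · have : (n : ℝ) ≤ (⌈(z.re + 4) / 4⌉ : ℝ) := by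
        refine le_trans ?_ (Int.le_ceil _)
        rw [le_div_iff₀ (by norm_num)]
        linarith [h1.2, h2.1]
      exact_mod_cast this
  · intro n
    have : {z : ℂ | ∃ e : ℕ → Bool, z = ((4 * n + X e : ℝ) : ℂ)} =
        range fun e : ℕ → Bool => ((4 * n + X e : ℝ) : ℂ) := by
      ext z
      simp [eq_comm]
    rw [this]
    apply IsCompact.isClosed
    apply isCompact_range
    have := continuous_X
    fun_prop

theorem volume_range_X : volume (range X) = 0 := by
  have hc : IsCompact (range X) := isCompact_range continuous_X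
  have hfin : volume (range X) ≠ ⊤ := hc.measure_lt_top.ne
  have hsub : ∀ s : ℝ, volume ((fun x => s + 1 / 5 * x) '' range X) =
      ENNReal.ofReal (1 / 5) * volume (range X) := by
    intro s
    have h1 : (fun x => s + 1 / 5 * x) '' range X = (fun x => s + x) '' ((1 / 5 : ℝ) • range X) := by
      rw [← Set.image_smul, Set.image_image]
      rfl
    rw [h1, Set.image_add_left, measure_preimage_add, Measure.addHaar_smul]
    simp
  have h1 : range X ⊆ (fun x => (-1 : ℝ) + 1 / 5 * x) '' range X ∪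
      (fun x => (1 : ℝ) + 1 / 5 * x) '' range X := by
    rintro _ ⟨e, rfl⟩
    cases h : e 0 with
    | false =>
      left
      refine ⟨X fun n => e (n + 1), ⟨_, rfl⟩, ?_⟩
      rw [X_succ e, h]
      simp [sg]
    | true =>
      right
      refine ⟨X fun n => e (n + 1), ⟨_, rfl⟩, ?_⟩
      rw [X_succ e, h]
      simp [sg]
  have h2 : volume (range X) ≤ ENNReal.ofReal (2 / 5) * volume (range X) := by
    calc volume (range X) ≤ _ := measure_mono h1
      _ ≤ _ := measure_union_le _ _
      _ = ENNReal.ofReal (1 / 5) * volume (range X) + ENNReal.ofReal (1 / 5) * volume (range X) := by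
        rw [hsub, hsub]
      _ = _ := by
        rw [← add_mul, ← ENNReal.ofReal_add (by norm_num) (by norm_num)]
        norm_num
  by_contra h0
  have h3 : ENNReal.ofReal (2 / 5) * volume (range X) < 1 * volume (range X) := by
    rw [ENNReal.mul_lt_mul_iff_left h0 hfin]
    rw [← ENNReal.ofReal_one]
    exact (ENNReal.ofReal_lt_ofReal_iff one_pos).2 (by norm_num)
  rw [one_mul] at h3
  exact absurd h2 (not_le.2 h3)

theorem volume_ZR : volume ZR = 0 := by
  have e : ZR ⊆ ⋃ n : ℤ, (fun x => 4 * (n : ℝ) + x) '' range X := by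
    rintro x ⟨n, e, rfl⟩
    exact mem_iUnion.2 ⟨n, X e, ⟨e, rfl⟩, rfl⟩
  refine measure_mono_null e ?_
  rw [measure_iUnion_null_iff]
  intro n
  rw [Set.image_add_left, measure_preimage_add]
  exact volume_range_X

/-- `ZR` contains no interval -/
theorem exists_gap {a b : ℝ} (h : a < b) : ∃ x, a < x ∧ x < b ∧ x ∉ ZR := by
  by_contra hcon
  push Not at hcon
  have h1 : Ioo a b ⊆ ZR := fun x hx => hcon x hx.1 hx.2
  have h2 := measure_mono_null h1 volume_ZR
  rw [Real.volume_Ioo, ENNReal.ofReal_eq_zero] at h2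
  linarith

/-- A homeomorphism `z ↦ p + G (|z - p|) (z - p)`. -/
noncomputable def radial (p : ℂ) (G G' : ℝ → ℂ) (hG : Continuous G) (hG' : Continuous G')
    (h : ∀ ρ : ℝ, 0 ≤ ρ → G' (‖G ρ‖ * ρ) * G ρ = 1)
    (h' : ∀ ρ : ℝ, 0 ≤ ρ → G (‖G' ρ‖ * ρ) * G' ρ = 1) : ℂ ≃ₜ ℂ where
  toFun z := p + G ‖z - p‖ * (z - p)
  invFun z := p + G' ‖z - p‖ * (z - p)
  left_inv z := by
    have h1 := h ‖z - p‖ (norm_nonneg _)
    beta_reduce
    rw [add_sub_cancel_left, norm_mul, ← mul_assoc, h1]
    ring
  right_inv z := by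
    have h1 := h' ‖z - p‖ (norm_nonneg _)
    beta_reduce
    rw [add_sub_cancel_left, norm_mul, ← mul_assoc, h1]
    ring
  continuous_toFun := by fun_prop
  continuous_invFun := by fun_prop

/-- the angle of the twist: `π` for `r ≤ a`, `0` for `r ≥ b` -/
noncomputable def ang (a b r : ℝ) : ℝ := Real.pi * max 0 (min 1 ((b - r) / (b - a)))

theorem ang_in {a b r : ℝ} (hab : a < b) (h : r ≤ a) : ang a b r = Real.pi := by
  have : 1 ≤ (b - r) / (b - a) := by
    rw [le_div_iff₀ (by linarith)]
    linarith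
  rw [ang, min_eq_left this, max_eq_right (by norm_num), mul_one]

theorem ang_out {a b r : ℝ} (hab : a < b) (h : b ≤ r) : ang a b r = 0 := by
  have : (b - r) / (b - a) ≤ 0 := div_nonpos_of_nonpos_of_nonneg (by linarith) (by linarith)
  rw [ang, max_eq_left ((min_le_right _ _).trans this), mul_zero]

/-- The half twist: the rotation by `π` around `p` in the disc of radius `a`, the identity outside
the disc of radius `b`. -/
noncomputable def twist (p : ℂ) (a b : ℝ) : ℂ ≃ₜ ℂ :=
  radial p (fun r => Circle.exp (ang a b r)) (fun r => Circle.exp (-ang a b r))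
    (by unfold ang; fun_prop) (by unfold ang; fun_prop)
    (fun ρ _ => by
      rw [Circle.norm_coe, one_mul, ← Circle.coe_mul, ← Circle.exp_add]
      simp)
    (fun ρ _ => by
      rw [Circle.norm_coe, one_mul, ← Circle.coe_mul, ← Circle.exp_add]
      simp)

theorem twist_in {p z : ℂ} {a b : ℝ} (hab : a < b) (h : ‖z - p‖ ≤ a) :
    twist p a b z = 2 * p - z := by
  show p + (Circle.exp (ang a b ‖z - p‖) : ℂ) * (z - p) = _
  rw [ang_in hab h, Circle.coe_exp, Complex.exp_pi_mul_I]
  ring

theorem twist_out {p z : ℂ} {a b : ℝ} (hab : a < b) (h : b ≤ ‖z - p‖) : twist p a b z = z := by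
  show p + (Circle.exp (ang a b ‖z - p‖) : ℂ) * (z - p) = _
  rw [ang_out hab h, Circle.exp_zero]
  push_cast
  ring

/-- the factor of the expansion: `5` for `r ≤ 1/20`, `1` for `r ≥ 7/20` -/
noncomputable def fac (r : ℝ) : ℝ := max 1 (1 / 3 + 7 / 30 / max r (1 / 20))

/-- the factor of the inverse -/
noncomputable def fac' (r : ℝ) : ℝ := min 1 (3 - 7 / 10 / max r (1 / 4))

theorem continuous_fac : Continuous fac := by
  unfold fac
  refine continuous_const.max (continuous_const.add (continuous_const.div (by fun_prop) fun r => ?_))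
  have : (0 : ℝ) < max r (1 / 20) := lt_max_of_lt_right (by norm_num)
  exact this.ne'

theorem continuous_fac' : Continuous fac' := by
  unfold fac'
  refine continuous_const.min (continuous_const.sub (continuous_const.div (by fun_prop) fun r => ?_))
  have : (0 : ℝ) < max r (1 / 4) := lt_max_of_lt_right (by norm_num)
  exact this.ne'

theorem fac_in {r : ℝ} (h : r ≤ 1 / 20) : fac r = 5 := by
  rw [fac, max_eq_right h]
  norm_num

theorem fac_mid {r : ℝ} (h : 1 / 20 ≤ r) (h' : r ≤ 7 / 20) : fac r = 1 / 3 + 7 / 30 / r := by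
  rw [fac, max_eq_left h, max_eq_right]
  have : 2 / 3 ≤ 7 / 30 / r := by
    rw [le_div_iff₀ (by linarith)]
    linarith
  linarith

theorem fac_out {r : ℝ} (h : 7 / 20 ≤ r) : fac r = 1 := by
  rw [fac, max_eq_left (show (1 / 20 : ℝ) ≤ r by linarith), max_eq_left]
  have : 7 / 30 / r ≤ 2 / 3 := by
    rw [div_le_iff₀ (by linarith)]
    linarith
  linarith

theorem fac'_in {r : ℝ} (h : r ≤ 1 / 4) : fac' r = 1 / 5 := by
  rw [fac', max_eq_right h]
  norm_num

theorem fac'_mid {r : ℝ} (h : 1 / 4 ≤ r) (h' : r ≤ 7 / 20) : fac' r = 3 - 7 / 10 / r := by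
  rw [fac', max_eq_left h, min_eq_right]
  have : 2 ≤ 7 / 10 / r := by
    rw [le_div_iff₀ (by linarith)]
    linarith
  linarith

theorem fac'_out {r : ℝ} (h : 7 / 20 ≤ r) : fac' r = 1 := by
  rw [fac', max_eq_left (show (1 / 4 : ℝ) ≤ r by linarith), min_eq_left]
  have : 7 / 10 / r ≤ 2 := by
    rw [div_le_iff₀ (by linarith)]
    linarith
  linarith

theorem fac_pos (r : ℝ) : 0 < fac r := lt_of_lt_of_le one_pos (le_max_left _ _)

theorem fac'_pos (r : ℝ) : 0 < fac' r := by
  refine lt_min one_pos ?_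
  have : 7 / 10 / max r (1 / 4) ≤ 7 / 10 / (1 / 4) := by
    apply div_le_div_of_nonneg_left (by norm_num) (by norm_num) (le_max_right _ _)
  norm_num at this ⊢
  linarith

theorem fac'_fac {r : ℝ} (_hr : 0 ≤ r) : fac' (fac r * r) * fac r = 1 := by
  rcases le_total r (1 / 20) with h | h
  · rw [fac_in h, fac'_in (by linarith)]
    norm_num
  rcases le_total r (7 / 20) with h' | h'
  · have hr0 : 0 < r := by linarith
    have e : fac r * r = (r / 3 + 7 / 30) := by
      rw [fac_mid h h']
      field_simp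
    have h1 : 0 < r / 3 + 7 / 30 := by linarith
    rw [e, fac'_mid (by linarith) (by linarith), fac_mid h h']
    field_simp
    ring
  · rw [fac_out h', one_mul, fac'_out h', mul_one]

theorem fac_fac' {r : ℝ} (_hr : 0 ≤ r) : fac (fac' r * r) * fac' r = 1 := by
  rcases le_total r (1 / 4) with h | h
  · rw [fac'_in h, fac_in (by linarith)]
    norm_num
  rcases le_total r (7 / 20) with h' | h'
  · have hr0 : 0 < r := by linarith
    have e : fac' r * r = 3 * r - 7 / 10 := by
      rw [fac'_mid h h']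
      field_simp
    rw [e, fac_mid (by linarith) (by linarith), fac'_mid h h']
    have h1 : (3 * r - 7 / 10) ≠ 0 := by
      have : 0 < 3 * r - 7 / 10 := by linarith
      exact this.ne'
    have h2 : 7 / 30 / (3 * r - 7 / 10) * (3 * r - 7 / 10) = 7 / 30 := div_mul_cancel₀ _ h1
    have h3 : 3 - 7 / 10 / r = (3 * r - 7 / 10) / r := by
      field_simp
    rw [h3, ← mul_div_assoc, add_mul, h2]
    field_simp
    ring
  · rw [fac'_out h', one_mul, fac_out h', mul_one]

/-- The expansion by the factor `5` of the disc of radius `1/20` around `p`, the identity outside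
the disc of radius `7/20`. -/
noncomputable def expand (p : ℂ) : ℂ ≃ₜ ℂ :=
  radial p (fun r => (fac r : ℂ)) (fun r => (fac' r : ℂ))
    (Complex.continuous_ofReal.comp continuous_fac) (Complex.continuous_ofReal.comp continuous_fac')
    (fun ρ hρ => by
      rw [Complex.norm_real, Real.norm_eq_abs, abs_of_pos (fac_pos _), ← Complex.ofReal_mul,
        fac'_fac hρ, Complex.ofReal_one])
    (fun ρ hρ => by
      rw [Complex.norm_real, Real.norm_eq_abs, abs_of_pos (fac'_pos _), ← Complex.ofReal_mul,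
        fac_fac' hρ, Complex.ofReal_one])

theorem expand_in {p z : ℂ} (h : ‖z - p‖ ≤ 1 / 20) : expand p z = p + 5 * (z - p) := by
  show p + (fac ‖z - p‖ : ℂ) * (z - p) = _
  rw [fac_in h]
  norm_num

theorem expand_out {p z : ℂ} (h : 7 / 20 ≤ ‖z - p‖) : expand p z = z := by
  show p + (fac ‖z - p‖ : ℂ) * (z - p) = _
  rw [fac_out h]
  push_cast
  ring

theorem expand_symm_in {p z : ℂ} (h : ‖z - p‖ ≤ 1 / 4) :
    (expand p).symm z = p + 1 / 5 * (z - p) := by
  show p + (fac' ‖z - p‖ : ℂ) * (z - p) = _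
  rw [fac'_in h]
  norm_num

theorem expand_symm_out {p z : ℂ} (h : 7 / 20 ≤ ‖z - p‖) : (expand p).symm z = z := by
  rw [Homeomorph.symm_apply_eq, expand_out h]

end Pool.Agent.Helper60.MC
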