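import Mathlib
import Pool.Agent.Helper60.MC.Model

/-!
# The Cantor set in the disc
-/

set_option autoImplicit false

namespace Pool.Agent.Helper60.MC

open Set Topology MeasureTheory

/-- the Cantor set -/
def CC : Set ℂ := DiscSet ZC

/-- the map `Φ` on the line -/
noncomputable def phi (x : ℝ) : ℝ := x / (1 + |x|)

theorem Phi_ofReal (x : ℝ) : Phi (x : ℂ) = (phi x : ℂ) := by
  unfold Phi phi
  rw [Complex.norm_real, Real.norm_eq_abs]
  push_cast
  rfl

theorem isClosed_CC : IsClosed CC := by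
  have h1 : IsClosed {w : ℂ | w.im = 0} := isClosed_eq Complex.continuous_im continuous_const
  have h2 : IsClosed {w : ℂ | ‖w‖ ≤ 1} := isClosed_le continuous_norm continuous_const
  have h3 : IsOpen ({w : ℂ | ‖w‖ < 1} ∩ Psi ⁻¹' ZCᶜ) :=
    continuousOn_Psi.isOpen_inter_preimage (isOpen_lt continuous_norm continuous_const)
      isClosed_ZC.isOpen_compl
  have e : CC = {w : ℂ | w.im = 0} ∩ {w : ℂ | ‖w‖ ≤ 1} ∩ ({w : ℂ | ‖w‖ < 1} ∩ Psi ⁻¹' ZCᶜ)ᶜ := by
    ext w
    constructor
    · rintro ⟨a, b, c⟩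
      exact ⟨⟨a, b⟩, fun h => h.2 (c h.1)⟩
    · rintro ⟨⟨a, b⟩, c⟩
      exact ⟨a, b, fun h => by
        by_contra h'
        exact c ⟨h, h'⟩⟩
  rw [e]
  exact (h1.inter h2).inter h3.isClosed_compl

theorem isCompact_CC : IsCompact CC := by
  refine Metric.isCompact_of_isClosed_isBounded isClosed_CC ?_
  refine (Metric.isBounded_closedBall (x := (0 : ℂ)) (r := 1)).subset fun w hw => ?_
  rw [mem_closedBall_zero_iff]
  exact hw.2.1

theorem one_mem_CC : (1 : ℂ) ∈ CC := ⟨by simp, by simp, by simp⟩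

theorem neg_one_mem_CC : (-1 : ℂ) ∈ CC := ⟨by simp, by simp, by simp⟩

theorem psi_lt {a b : ℝ} (ha : |a| < 1) (hb : |b| < 1) (h : a < b) :
    a / (1 - |a|) < b / (1 - |b|) := by
  have h1 : 0 < 1 - |a| := by linarith
  have h2 : 0 < 1 - |b| := by linarith
  rw [div_lt_div_iff₀ h1 h2]
  rcases abs_cases a with ⟨e1, h3⟩ | ⟨e1, h3⟩ <;> rcases abs_cases b with ⟨e2, h4⟩ | ⟨e2, h4⟩ <;>
    rw [e1, e2] <;> nlinarith

theorem Psi_ofReal (x : ℝ) : Psi (x : ℂ) = ((x / (1 - |x|) : ℝ) : ℂ) := by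
  unfold Psi
  rw [Complex.norm_real, Real.norm_eq_abs]
  push_cast
  rfl

/-- the complement of the Cantor set is dense in the line -/
theorem exists_gap_CC {a b : ℝ} (h : a < b) : ∃ x, a < x ∧ x < b ∧ (x : ℂ) ∉ CC := by
  rcases lt_or_ge a (-1) with ha | ha
  · refine ⟨(a + min b (-1)) / 2, ?_, ?_, ?_⟩
    · have : a < min b (-1) := lt_min h ha
      linarith
    · have : a < min b (-1) := lt_min h ha
      have : min b (-1) ≤ b := min_le_left _ _
      linarith
    · rintro ⟨-, h1, -⟩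
      rw [Complex.norm_real, Real.norm_eq_abs, abs_le] at h1
      have : min b (-1) ≤ -1 := min_le_right _ _
      linarith [h1.1]
  rcases lt_or_ge 1 b with hb | hb
  · refine ⟨(b + max a 1) / 2, ?_, ?_, ?_⟩
    · have : a ≤ max a 1 := le_max_left _ _
      linarith
    · have : max a 1 < b := max_lt h hb
      linarith
    · rintro ⟨-, h1, -⟩
      rw [Complex.norm_real, Real.norm_eq_abs, abs_le] at h1
      have : 1 ≤ max a 1 := le_max_right _ _
      linarith [h1.2]
  have ha1 : |(2 * a + b) / 3| < 1 := by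
    rw [abs_lt]; constructor <;> linarith
  have hb1 : |(a + 2 * b) / 3| < 1 := by
    rw [abs_lt]; constructor <;> linarith
  obtain ⟨y, hy1, hy2, hy⟩ := exists_gap (psi_lt ha1 hb1 (by linarith))
  have e1 : phi ((2 * a + b) / 3 / (1 - |(2 * a + b) / 3|)) = (2 * a + b) / 3 := by
    have h1 := Phi_Psi (w := (((2 * a + b) / 3 : ℝ) : ℂ)) (by
      rw [Complex.norm_real, Real.norm_eq_abs]; exact ha1)
    rw [Psi_ofReal, Phi_ofReal] at h1
    exact Complex.ofReal_injective h1
  have e2 : phi ((a + 2 * b) / 3 / (1 - |(a + 2 * b) / 3|)) = (a + 2 * b) / 3 := by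
    have h1 := Phi_Psi (w := (((a + 2 * b) / 3 : ℝ) : ℂ)) (by
      rw [Complex.norm_real, Real.norm_eq_abs]; exact hb1)
    rw [Psi_ofReal, Phi_ofReal] at h1
    exact Complex.ofReal_injective h1
  have hmono : ∀ {x y : ℝ}, x < y → phi x < phi y := by
    intro x y hxy
    unfold phi
    have h1 : 0 < 1 + |x| := by positivity
    have h2 : 0 < 1 + |y| := by positivity
    rw [div_lt_div_iff₀ h1 h2]
    rcases abs_cases x with ⟨e1, h3⟩ | ⟨e1, h3⟩ <;> rcases abs_cases y with ⟨e2, h4⟩ | ⟨e2, h4⟩ <;>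
      rw [e1, e2] <;> nlinarith
  have h1 := hmono hy1
  have h2 := hmono hy2
  rw [e1] at h1
  rw [e2] at h2
  refine ⟨phi y, by linarith, by linarith, fun hmem => hy ?_⟩
  rw [← Phi_ofReal] at hmem
  exact ofReal_mem_ZC.1 ((Phi_mem_discSet ZC_im).1 hmem)

theorem isTotallyDisconnected_CC : IsTotallyDisconnected CC := by
  intro t ht hp
  by_contra hns
  rw [Set.not_subsingleton_iff] at hns
  obtain ⟨w₁, hw₁, w₂, hw₂, hne⟩ := hns
  have hre : ∀ w ∈ t, ((w.re : ℝ) : ℂ) = w := by
    intro w hw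
    have := (ht hw).1
    apply Complex.ext
    · simp
    · simpa using this.symm
  have hp' : IsPreconnected (Complex.re '' t) := hp.image _ Complex.continuous_re.continuousOn
  have hoc := hp'.ordConnected
  have key : ∀ w₁ ∈ t, ∀ w₂ ∈ t, w₁.re < w₂.re → False := by
    intro w₁ hw₁ w₂ hw₂ hlt
    obtain ⟨x, hx1, hx2, hx⟩ := exists_gap_CC hlt
    have h1 : x ∈ Complex.re '' t :=
      hoc.out ⟨w₁, hw₁, rfl⟩ ⟨w₂, hw₂, rfl⟩ ⟨hx1.le, hx2.le⟩
    obtain ⟨w, hw, rfl⟩ := h1
    rw [hre w hw] at hx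
    exact hx (ht hw)
  rcases lt_trichotomy w₁.re w₂.re with h | h | h
  · exact key _ hw₁ _ hw₂ h
  · apply hne
    rw [← hre w₁ hw₁, ← hre w₂ hw₂, h]
  · exact key _ hw₂ _ hw₁ h

theorem Phi_mem_CC (n : ℤ) (e : ℕ → Bool) : Phi ((4 * n + X e : ℝ) : ℂ) ∈ CC :=
  (Phi_mem_discSet ZC_im).2 ⟨n, e, rfl⟩

theorem tendsto_phi_one : Filter.Tendsto phi Filter.atTop (𝓝 1) := by
  have h : ∀ᶠ x : ℝ in Filter.atTop, 1 - 1 / (1 + x) = phi x := by
    filter_upwards [Filter.eventually_ge_atTop 0] with x hx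
    unfold phi
    rw [abs_of_nonneg hx]
    have : (1 + x) ≠ 0 := by positivity
    field_simp
    ring
  refine Filter.Tendsto.congr' h ?_
  have h1 : Filter.Tendsto (fun x : ℝ => 1 + x) Filter.atTop Filter.atTop :=
    Filter.tendsto_atTop_add_const_left _ _ Filter.tendsto_id
  have h2 := (tendsto_const_nhds (x := (1 : ℝ))).sub (h1.const_div_atTop (1 : ℝ))
  simpa using h2

theorem phi_neg (x : ℝ) : phi (-x) = - phi x := by
  unfold phi
  rw [abs_neg]
  ring

theorem noIsolated_CC : ∀ c ∈ CC, ∀ ε > 0, ∃ d ∈ CC, d ≠ c ∧ dist d c < ε := by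
  intro c hc ε hε
  rcases lt_or_ge ‖c‖ 1 with h | h
  · obtain ⟨n, e, hz⟩ := hc.2.2 h
    have hc' : c = Phi ((4 * n + X e : ℝ) : ℂ) := by rw [← hz, Phi_Psi h]
    obtain ⟨δ, hδ, hcont⟩ := Metric.continuousAt_iff.1
      (continuous_Phi.continuousAt (x := ((4 * n + X e : ℝ) : ℂ))) ε hε
    obtain ⟨e', h1, h2⟩ := exists_near e hδ
    refine ⟨Phi ((4 * n + X e' : ℝ) : ℂ), Phi_mem_CC n e', ?_, ?_⟩
    · rw [hc']
      intro h3
      have h4 := congrArg Psi h3
      rw [Psi_Phi, Psi_Phi] at h4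
      have h5 := Complex.ofReal_injective h4
      apply h1
      linarith
    · rw [hc']
      apply hcont
      rw [dist_eq_norm, ← Complex.ofReal_sub, Complex.norm_real, Real.norm_eq_abs]
      rwa [show 4 * (n : ℝ) + X e' - (4 * n + X e) = X e' - X e by ring]
  · have hc1 : ‖c‖ = 1 := le_antisymm hc.2.1 h
    have hre : ((c.re : ℝ) : ℂ) = c := by
      apply Complex.ext
      · simp
      · simpa using hc.1.symm
    have habs : |c.re| = 1 := by
      rw [← hre, Complex.norm_real, Real.norm_eq_abs] at hc1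
      exact hc1
    obtain ⟨x, hx, hxC⟩ : ∃ x : ℝ, |phi x - 1| < ε ∧ (phi x : ℂ) ∈ CC ∧ ((phi (-x) : ℝ) : ℂ) ∈ CC := by
      have h1 := Metric.tendsto_nhds.1 tendsto_phi_one ε hε
      obtain ⟨B, hB⟩ := Filter.eventually_atTop.1 h1
      obtain ⟨n, hn⟩ := exists_nat_gt ((B + 2) / 4)
      let e : ℕ → Bool := fun _ => true
      refine ⟨4 * ((n : ℤ) : ℝ) + X e, ?_, ?_, ?_⟩
      · have h2 := hB (4 * ((n : ℤ) : ℝ) + X e) (by
          have := abs_le.1 (abs_X_le e)
          rw [div_lt_iff₀ (by norm_num)] at hn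
          push_cast
          linarith [this.1])
        rwa [Real.dist_eq] at h2
      · rw [← Phi_ofReal]
        exact Phi_mem_CC _ _
      · rw [show -(4 * ((n : ℤ) : ℝ) + X e) = 4 * (((-n : ℤ)) : ℝ) + X fun k => !e k by
          rw [X_not]; push_cast; ring, ← Phi_ofReal]
        exact Phi_mem_CC _ _
    have hlt : |phi x| < 1 := by
      have := norm_Phi_lt (x : ℂ)
      rwa [Phi_ofReal, Complex.norm_real, Real.norm_eq_abs] at this
    rcases (abs_eq zero_le_one).1 habs with h2 | h2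
    · refine ⟨(phi x : ℂ), hxC.1, ?_, ?_⟩
      · rw [← hre, h2]
        intro h3
        have := Complex.ofReal_injective h3
        rw [this] at hlt
        simp at hlt
      · rw [← hre, h2, dist_eq_norm, ← Complex.ofReal_sub, Complex.norm_real, Real.norm_eq_abs]
        exact hx
    · refine ⟨((phi (-x) : ℝ) : ℂ), hxC.2, ?_, ?_⟩
      · rw [← hre, h2]
        intro h3
        have := Complex.ofReal_injective h3
        rw [phi_neg] at this
        rw [show phi x = 1 by linarith] at hlt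
        simp at hlt
      · rw [← hre, h2, dist_eq_norm, ← Complex.ofReal_sub, Complex.norm_real, Real.norm_eq_abs,
          phi_neg]
        rw [show -phi x - -1 = -(phi x - 1) by ring, abs_neg]
        exact hx

theorem isCantorSet_CC : IsCantorSet CC :=
  ⟨⟨1, one_mem_CC⟩, isCompact_CC, isTotallyDisconnected_CC, noIsolated_CC⟩

theorem smallCircles_CC : SmallCircles CC := by
  intro c hc ε hε
  have hre : ((c.re : ℝ) : ℂ) = c := by
    apply Complex.ext
    · simp
    · simpa using hc.1.symm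
  obtain ⟨a, ha1, ha2, ha⟩ := exists_gap_CC (show c.re - ε / 2 < c.re by linarith)
  obtain ⟨b, hb1, hb2, hb⟩ := exists_gap_CC (show c.re < c.re + ε / 2 by linarith)
  refine ⟨(((a + b) / 2 : ℝ) : ℂ), (b - a) / 2, ?_, by linarith, ?_⟩
  · rw [← hre, ← Complex.ofReal_sub, Complex.norm_real, Real.norm_eq_abs, abs_lt]
    constructor <;> linarith
  · intro u hu
    have h1 := hu.1
    have hρ : (0 : ℝ) < (b - a) / 2 := by linarith
    rw [Complex.add_im, Complex.ofReal_im, zero_add, Complex.im_ofReal_mul] at h1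
    have h2 : (u : ℂ).im = 0 := by
      rcases mul_eq_zero.1 h1 with h | h
      · exact absurd h hρ.ne'
      · exact h
    have h3 : (((u : ℂ).re : ℝ) : ℂ) = u := by
      apply Complex.ext
      · simp
      · simpa using h2.symm
    have h4 : |(u : ℂ).re| = 1 := by
      have := Circle.norm_coe u
      rw [← h3, Complex.norm_real, Real.norm_eq_abs] at this
      exact this
    rcases (abs_eq zero_le_one).1 h4 with h5 | h5
    · apply hb
      rw [← h3, h5, ← Complex.ofReal_mul, ← Complex.ofReal_add] at hu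
      rwa [show (a + b) / 2 + (b - a) / 2 * 1 = b by ring] at hu
    · apply ha
      rw [← h3, h5, ← Complex.ofReal_mul, ← Complex.ofReal_add] at hu
      rwa [show (a + b) / 2 + (b - a) / 2 * -1 = a by ring] at hu

end Pool.Agent.Helper60.MC
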