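import Mathlib
import Pool.Agent.Helper60.MC.Cantor

/-!
# The group
-/

set_option autoImplicit false

namespace Pool.Agent.Helper60.MC

open Set Topology

theorem norm_ofReal_sub (x p : ℝ) : ‖(x : ℂ) - (p : ℂ)‖ = |x - p| := by
  rw [← Complex.ofReal_sub, Complex.norm_real, Real.norm_eq_abs]

theorem twist_real_in {x p a b : ℝ} (hab : a < b) (h : |x - p| ≤ a) :
    twist (p : ℂ) a b (x : ℂ) = ((2 * p - x : ℝ) : ℂ) := by
  rw [twist_in hab (by rw [norm_ofReal_sub]; exact h)]
  push_cast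
  ring

theorem twist_real_out {x p a b : ℝ} (hab : a < b) (h : b ≤ |x - p|) :
    twist (p : ℂ) a b (x : ℂ) = (x : ℂ) :=
  twist_out hab (by rw [norm_ofReal_sub]; exact h)

/-- the point of the Cantor set `X` -/
noncomputable def pt (e : ℕ → Bool) : ℂ := ((X e : ℝ) : ℂ)

theorem pt_mem (e : ℕ → Bool) : pt e ∈ ZC := ⟨0, e, by simp [pt]⟩

theorem cons_eta (e : ℕ → Bool) : cons (e 0) (fun n => e (n + 1)) = e := by
  ext n
  cases n <;> rfl

/-- the opposite sequence -/
def opp (e : ℕ → Bool) : ℕ → Bool := fun n => !e n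

theorem opp_opp (e : ℕ → Bool) : opp (opp e) = e := by
  ext n
  simp [opp]

theorem X_opp (e : ℕ → Bool) : X (opp e) = - X e := X_not e

theorem sg_true : sg true = 1 := by simp [sg]

theorem sg_false : sg false = -1 := by simp [sg]

theorem ZC_cases {z : ℂ} (hz : z ∈ ZC) : (∃ x : ℝ, z = x ∧ 11 / 4 ≤ |x|) ∨ ∃ e, z = pt e := by
  obtain ⟨n, e, rfl⟩ := hz
  rcases eq_or_ne n 0 with rfl | hn
  · right
    exact ⟨e, by simp [pt]⟩
  · left
    refine ⟨_, rfl, ?_⟩
    have h1 : (1 : ℝ) ≤ |(n : ℝ)| := by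
      have : (1 : ℤ) ≤ |n| := Int.one_le_abs hn
      exact_mod_cast this
    have h2 := abs_X_le e
    have h3 : |4 * (n : ℝ)| ≤ |4 * (n : ℝ) + X e| + |X e| := by
      calc |4 * (n : ℝ)| = |(4 * (n : ℝ) + X e) - X e| := by congr 1; ring
        _ ≤ _ := abs_sub _ _
    rw [abs_mul, abs_of_pos (show (0 : ℝ) < 4 by norm_num)] at h3
    linarith

/-- a homeomorphism of bounded support which acts as an involution of `Z` -/
theorem mem_transGroup {F : ℂ ≃ₜ ℂ} (h : ∀ z ∈ ZC, F z ∈ ZC ∧ F (F z) = z)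
    {R : ℝ} (hR : ∀ z, R ≤ ‖z‖ → F z = z) : F ∈ TransGroup ZC := by
  refine ⟨fun z => ⟨fun hz => ?_, fun hz => (h z hz).1⟩, 0, R, fun z hz => by
    rw [hR z hz]; simp⟩
  have h1 := h _ hz
  have h2 : F (F z) = z := F.injective h1.2
  rw [← h2]
  exact h1.1

/-! ### The swap of the cones `0` and `1` -/

theorem s_far {z : ℂ} (h : 11 / 4 ≤ ‖z‖) : twist ((0 : ℝ) : ℂ) (5 / 4) 2 z = z :=
  twist_out (by norm_num) (by simp; linarith)

theorem s_pt (e : ℕ → Bool) : twist ((0 : ℝ) : ℂ) (5 / 4) 2 (pt e) = pt (opp e) := by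
  unfold pt
  rw [twist_real_in (by norm_num) (by rw [sub_zero]; exact abs_X_le e), X_opp]
  simp

theorem s_mem : twist ((0 : ℝ) : ℂ) (5 / 4) 2 ∈ TransGroup ZC := by
  refine mem_transGroup (fun z hz => ?_) (R := 11 / 4) fun z hz => s_far hz
  rcases ZC_cases hz with ⟨x, rfl, hx⟩ | ⟨e, rfl⟩
  · have hx' : 11 / 4 ≤ ‖(x : ℂ)‖ := by rwa [Complex.norm_real, Real.norm_eq_abs]
    rw [s_far hx', s_far hx']
    exact ⟨hz, rfl⟩
  · rw [s_pt, s_pt, opp_opp]
    exact ⟨pt_mem _, rfl⟩

/-! ### The swap of the cones `00` and `01` -/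

theorem t_far {z : ℂ} (h : 11 / 4 ≤ ‖z‖) : twist ((-1 : ℝ) : ℂ) (1 / 4) 1 z = z := by
  refine twist_out (by norm_num) ?_
  have h1 : ‖z‖ ≤ ‖z - ((-1 : ℝ) : ℂ)‖ + ‖((-1 : ℝ) : ℂ)‖ := by
    calc ‖z‖ = ‖(z - ((-1 : ℝ) : ℂ)) + ((-1 : ℝ) : ℂ)‖ := by congr 1; ring
      _ ≤ _ := norm_add_le _ _
  rw [Complex.norm_real, Real.norm_eq_abs, abs_neg, abs_one] at h1
  linarith

theorem t_pt_true (e : ℕ → Bool) :
    twist ((-1 : ℝ) : ℂ) (1 / 4) 1 (pt (cons true e)) = pt (cons true e) := by
  unfold pt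
  apply twist_real_out (by norm_num)
  rw [X_cons, sg_true]
  have := abs_le.1 (abs_X_le e)
  rw [abs_of_pos] <;> linarith [this.1]

theorem t_pt_false (e : ℕ → Bool) :
    twist ((-1 : ℝ) : ℂ) (1 / 4) 1 (pt (cons false e)) = pt (cons false (opp e)) := by
  unfold pt
  rw [twist_real_in (by norm_num), X_cons, X_cons, X_opp, sg_false]
  · congr 1
    ring
  · rw [X_cons, sg_false]
    have := abs_le.1 (abs_X_le e)
    rw [abs_le]
    constructor <;> linarith [this.1, this.2]

theorem t_mem : twist ((-1 : ℝ) : ℂ) (1 / 4) 1 ∈ TransGroup ZC := by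
  refine mem_transGroup (fun z hz => ?_) (R := 11 / 4) fun z hz => t_far hz
  rcases ZC_cases hz with ⟨x, rfl, hx⟩ | ⟨e, rfl⟩
  · have hx' : 11 / 4 ≤ ‖(x : ℂ)‖ := by rwa [Complex.norm_real, Real.norm_eq_abs]
    rw [t_far hx', t_far hx']
    exact ⟨hz, rfl⟩
  · rw [← cons_eta e]
    cases e 0
    · rw [t_pt_false, t_pt_false, opp_opp]
      exact ⟨pt_mem _, rfl⟩
    · rw [t_pt_true, t_pt_true]
      exact ⟨pt_mem _, rfl⟩

/-! ### The swap of the cones `01` and `1` -/

/-- the homeomorphism which swaps the cones `01` and `1` -/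
noncomputable def uu : ℂ ≃ₜ ℂ :=
  (expand ((-4 / 5 : ℝ) : ℂ))⁻¹ * twist ((1 / 10 : ℝ) : ℂ) (23 / 20) (5 / 4) *
    expand ((-4 / 5 : ℝ) : ℂ)

theorem uu_apply (z : ℂ) : uu z = (expand ((-4 / 5 : ℝ) : ℂ)).symm
    (twist ((1 / 10 : ℝ) : ℂ) (23 / 20) (5 / 4) (expand ((-4 / 5 : ℝ) : ℂ) z)) := rfl

theorem dist_ge {z : ℂ} {p : ℝ} (h : 11 / 4 ≤ ‖z‖) (hp : |p| ≤ 1) : 7 / 4 ≤ ‖z - (p : ℂ)‖ := by
  have h1 : ‖z‖ ≤ ‖z - (p : ℂ)‖ + ‖(p : ℂ)‖ := by
    calc ‖z‖ = ‖(z - (p : ℂ)) + (p : ℂ)‖ := by congr 1; ring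
      _ ≤ _ := norm_add_le _ _
  rw [Complex.norm_real, Real.norm_eq_abs] at h1
  linarith

theorem u_far {z : ℂ} (h : 11 / 4 ≤ ‖z‖) : uu z = z := by
  have h1 := dist_ge h (p := -4 / 5) (by rw [abs_le]; constructor <;> norm_num)
  have h2 := dist_ge h (p := 1 / 10) (by rw [abs_le]; constructor <;> norm_num)
  rw [uu_apply, expand_out (by linarith), twist_out (by norm_num) (by linarith),
    expand_symm_out (by linarith)]

theorem expand_real_in {x p : ℝ} (h : |x - p| ≤ 1 / 20) :
    expand (p : ℂ) (x : ℂ) = ((p + 5 * (x - p) : ℝ) : ℂ) := by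
  rw [expand_in (by rw [norm_ofReal_sub]; exact h)]
  push_cast
  ring

theorem expand_real_out {x p : ℝ} (h : 7 / 20 ≤ |x - p|) : expand (p : ℂ) (x : ℂ) = (x : ℂ) :=
  expand_out (by rw [norm_ofReal_sub]; exact h)

theorem expand_symm_real_in {x p : ℝ} (h : |x - p| ≤ 1 / 4) :
    (expand (p : ℂ)).symm (x : ℂ) = ((p + 1 / 5 * (x - p) : ℝ) : ℂ) := by
  rw [expand_symm_in (by rw [norm_ofReal_sub]; exact h)]
  push_cast
  ring

theorem expand_symm_real_out {x p : ℝ} (h : 7 / 20 ≤ |x - p|) :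
    (expand (p : ℂ)).symm (x : ℂ) = (x : ℂ) :=
  expand_symm_out (by rw [norm_ofReal_sub]; exact h)

theorem u_pt_true (e : ℕ → Bool) : uu (pt (cons true e)) = pt (cons false (cons true (opp e))) := by
  have h := abs_le.1 (abs_X_le e)
  unfold pt
  rw [uu_apply, expand_real_out, twist_real_in (by norm_num), expand_symm_real_in]
  · rw [X_cons, X_cons, X_cons, X_opp, sg_true, sg_false]
    congr 1
    ring
  · rw [X_cons, sg_true, abs_le]
    constructor <;> linarith [h.1, h.2]
  · rw [X_cons, sg_true, abs_le]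
    constructor <;> linarith [h.1, h.2]
  · rw [X_cons, sg_true, abs_of_pos] <;> linarith [h.1, h.2]

theorem u_pt_false_true (e : ℕ → Bool) :
    uu (pt (cons false (cons true e))) = pt (cons true (opp e)) := by
  have h := abs_le.1 (abs_X_le e)
  unfold pt
  rw [uu_apply, expand_real_in, twist_real_in (by norm_num), expand_symm_real_out]
  · rw [X_cons, X_cons, X_cons, X_opp, sg_true, sg_false]
    congr 1
    ring
  · rw [X_cons, X_cons, sg_true, sg_false, abs_of_pos] <;> linarith [h.1, h.2]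
  · rw [X_cons, X_cons, sg_true, sg_false, abs_le]
    constructor <;> linarith [h.1, h.2]
  · rw [X_cons, X_cons, sg_true, sg_false, abs_le]
    constructor <;> linarith [h.1, h.2]

theorem u_pt_false_false (e : ℕ → Bool) :
    uu (pt (cons false (cons false e))) = pt (cons false (cons false e)) := by
  have h := abs_le.1 (abs_X_le e)
  unfold pt
  have h1 : 7 / 20 ≤ |X (cons false (cons false e)) - -4 / 5| := by
    rw [X_cons, X_cons, sg_false, abs_of_neg] <;> linarith [h.1, h.2]
  rw [uu_apply, expand_real_out h1, twist_real_out (by norm_num), expand_symm_real_out h1]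
  rw [X_cons, X_cons, sg_false, abs_of_neg] <;> linarith [h.1, h.2]

theorem u_mem : uu ∈ TransGroup ZC := by
  refine mem_transGroup (fun z hz => ?_) (R := 11 / 4) fun z hz => u_far hz
  rcases ZC_cases hz with ⟨x, rfl, hx⟩ | ⟨e, rfl⟩
  · have hx' : 11 / 4 ≤ ‖(x : ℂ)‖ := by rwa [Complex.norm_real, Real.norm_eq_abs]
    rw [u_far hx', u_far hx']
    exact ⟨hz, rfl⟩
  · rw [← cons_eta e]
    cases e 0
    · rw [← cons_eta fun n => e (n + 1)]
      cases e (0 + 1)
      · rw [u_pt_false_false, u_pt_false_false]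
        exact ⟨pt_mem _, rfl⟩
      · rw [u_pt_false_true, u_pt_true, opp_opp]
        exact ⟨pt_mem _, rfl⟩
    · rw [u_pt_true, u_pt_false_true, opp_opp]
      exact ⟨pt_mem _, rfl⟩

/-! ### The translation -/

theorem T_mem : Homeomorph.addRight (4 : ℂ) ∈ TransGroup ZC := by
  refine ⟨fun z => ?_, 1, 0, fun z _ => by simp⟩
  show z + 4 ∈ ZC ↔ _
  constructor
  · rintro ⟨n, e, h⟩
    refine ⟨n - 1, e, ?_⟩
    rw [← add_sub_cancel_right z 4, h]
    push_cast
    ring
  · rintro ⟨n, e, rfl⟩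
    refine ⟨n + 1, e, ?_⟩
    push_cast
    ring

/-- the generators -/
noncomputable def gs : TransGroup ZC := ⟨_, s_mem⟩
/-- the generators -/
noncomputable def gt : TransGroup ZC := ⟨_, t_mem⟩
/-- the generators -/
noncomputable def gu : TransGroup ZC := ⟨_, u_mem⟩
/-- the generators -/
noncomputable def gT : TransGroup ZC := ⟨_, T_mem⟩

/-- the group generated by them -/
noncomputable def Lam : Subgroup (TransGroup ZC) := Subgroup.closure {gs, gt, gu, gT}

/-- the action on `Z` -/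
noncomputable def act (Z : Set ℂ) : TransGroup Z →* Equiv.Perm Z where
  toFun F :=
    { toFun := fun z => ⟨F.1 z, (F.2.1 z).2 z.2⟩
      invFun := fun z => ⟨(F⁻¹).1 z, ((F⁻¹).2.1 z).2 z.2⟩
      left_inv := fun z => Subtype.ext (F.1.symm_apply_apply z)
      right_inv := fun z => Subtype.ext (F.1.apply_symm_apply z) }
  map_one' := rfl
  map_mul' _ _ := rfl

/-- the homomorphism to the mapping class group -/
noncomputable def toMap : TransGroup ZC →* MapGroup CC isClosed_CC :=
  (cls CC isClosed_CC).comp (extHom ZC ZC_im)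

theorem act_of_toMap {F : TransGroup ZC} (h : toMap F = 1) : act ZC F = 1 := by
  ext z
  exact fix_of_cls ZC_im smallCircles_CC h z.2

/-- the subgroup of the mapping class group -/
noncomputable def HH : Subgroup (MapGroup CC isClosed_CC) := Lam.map toMap

theorem HH_fg : HH.FG := by
  refine (Subgroup.fg_iff _).2 ⟨toMap '' {gs, gt, gu, gT}, ?_, ?_⟩
  · rw [HH, Lam, MonoidHom.map_closure]
  · exact (Set.toFinite _)

/-- the set of the points `pt (cons b e)` -/
def cone (b : Bool) : Set ZC := {z | ∃ e, (z : ℂ) = pt (cons b e)}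

/-- the set of the points `pt (cons false (cons b e))` -/
def cone' (b : Bool) : Set ZC := {z | ∃ e, (z : ℂ) = pt (cons false (cons b e))}

theorem pt_inj_real {e e' : ℕ → Bool} (h : pt e = pt e') : X e = X e' := Complex.ofReal_injective h

theorem cone_disjoint : Disjoint (cone false) (cone true) := by
  rw [Set.disjoint_left]
  rintro z ⟨e, he⟩ ⟨e', he'⟩
  rw [he] at he'
  have h := pt_inj_real he'
  rw [X_cons, X_cons, sg_true, sg_false] at h
  have h1 := abs_le.1 (abs_X_le e)
  have h2 := abs_le.1 (abs_X_le e')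
  linarith [h1.2, h2.1]

theorem cone'_disjoint : Disjoint (cone' false) (cone' true) := by
  rw [Set.disjoint_left]
  rintro z ⟨e, he⟩ ⟨e', he'⟩
  rw [he] at he'
  have h := pt_inj_real he'
  rw [X_cons, X_cons, X_cons, X_cons, sg_true, sg_false] at h
  have h1 := abs_le.1 (abs_X_le e)
  have h2 := abs_le.1 (abs_X_le e')
  linarith [h1.2, h2.1]

theorem cone'_union : cone' false ∪ cone' true = cone false := by
  ext z
  constructor
  · rintro (⟨e, he⟩ | ⟨e, he⟩)
    · exact ⟨_, he⟩
    · exact ⟨_, he⟩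
  · rintro ⟨e, he⟩
    rw [← cons_eta e] at he
    cases h : e 0
    · left
      rw [h] at he
      exact ⟨_, he⟩
    · right
      rw [h] at he
      exact ⟨_, he⟩

/-- images under an involution -/
theorem image_eq {F : TransGroup ZC} {A B : Set ZC} (h : ∀ z ∈ A, act ZC F z ∈ B)
    (h' : ∀ z ∈ B, ∃ w ∈ A, act ZC F w = z) : act ZC F '' A = B := by
  ext z
  constructor
  · rintro ⟨w, hw, rfl⟩
    exact h w hw
  · intro hz
    exact h' z hz

theorem act_coe (F : TransGroup ZC) (z : ZC) : ((act ZC F z : ZC) : ℂ) = F.1 z := rfl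

theorem union_iff (z : ZC) : z ∈ cone false ∪ cone true ↔ ∃ e, (z : ℂ) = pt e := by
  constructor
  · rintro (⟨e, he⟩ | ⟨e, he⟩)
    · exact ⟨_, he⟩
    · exact ⟨_, he⟩
  · rintro ⟨e, he⟩
    rw [← cons_eta e] at he
    cases h : e 0
    · left
      rw [h] at he
      exact ⟨_, he⟩
    · right
      rw [h] at he
      exact ⟨_, he⟩

/-- an involution of the points `pt e` preserves the union of the cones -/
theorem union_image {F : TransGroup ZC} (f : (ℕ → Bool) → ℕ → Bool)
    (hf : ∀ e, F.1 (pt e) = pt (f e)) (hff : ∀ e, F.1 (pt (f e)) = pt e) :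
    act ZC F '' (cone false ∪ cone true) = cone false ∪ cone true := by
  apply image_eq
  · intro z hz
    rw [union_iff] at *
    obtain ⟨e, he⟩ := hz
    exact ⟨f e, by rw [act_coe, he, hf]⟩
  · intro z hz
    rw [union_iff] at hz
    obtain ⟨e, he⟩ := hz
    refine ⟨⟨pt (f e), pt_mem _⟩, (union_iff _).2 ⟨_, rfl⟩, ?_⟩
    apply Subtype.ext
    rw [act_coe, he]
    exact hff e

theorem s_image : act ZC gs '' cone false = cone true := by
  apply image_eq
  · rintro z ⟨e, he⟩
    refine ⟨opp e, ?_⟩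
    rw [act_coe, he]
    show twist ((0 : ℝ) : ℂ) (5 / 4) 2 (pt (cons false e)) = _
    rw [s_pt]
    congr 1
    ext n
    cases n <;> rfl
  · rintro z ⟨e, he⟩
    refine ⟨⟨pt (cons false (opp e)), pt_mem _⟩, ⟨_, rfl⟩, ?_⟩
    apply Subtype.ext
    rw [act_coe, he]
    show twist ((0 : ℝ) : ℂ) (5 / 4) 2 (pt (cons false (opp e))) = _
    rw [s_pt]
    congr 1
    ext n
    cases n
    · rfl
    · show (!!e _) = _
      simp [cons]

theorem t_image : act ZC gt '' cone' false = cone' true := by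
  apply image_eq
  · rintro z ⟨e, he⟩
    refine ⟨opp e, ?_⟩
    rw [act_coe, he]
    show twist ((-1 : ℝ) : ℂ) (1 / 4) 1 (pt (cons false (cons false e))) = _
    rw [t_pt_false]
    congr 2
    ext n
    cases n <;> rfl
  · rintro z ⟨e, he⟩
    refine ⟨⟨pt (cons false (cons false (opp e))), pt_mem _⟩, ⟨_, rfl⟩, ?_⟩
    apply Subtype.ext
    rw [act_coe, he]
    show twist ((-1 : ℝ) : ℂ) (1 / 4) 1 (pt (cons false (cons false (opp e)))) = _
    rw [t_pt_false]
    congr 2
    ext n
    cases n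
    · rfl
    · show (!!e _) = _
      simp [cons]

theorem u_image : act ZC gu '' cone' true = cone true := by
  apply image_eq
  · rintro z ⟨e, he⟩
    refine ⟨opp e, ?_⟩
    rw [act_coe, he]
    exact u_pt_false_true e
  · rintro z ⟨e, he⟩
    refine ⟨⟨pt (cons false (cons true (opp e))), pt_mem _⟩, ⟨_, rfl⟩, ?_⟩
    apply Subtype.ext
    rw [act_coe, he]
    show uu _ = _
    rw [u_pt_false_true, opp_opp]

theorem s_union : act ZC gs '' (cone false ∪ cone true) = cone false ∪ cone true :=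
  union_image opp s_pt fun e => by
    show twist ((0 : ℝ) : ℂ) (5 / 4) 2 (pt (opp e)) = _
    rw [s_pt, opp_opp]

theorem t_union : act ZC gt '' (cone false ∪ cone true) = cone false ∪ cone true := by
  refine union_image (fun e => if e 0 then e else cons false (opp fun n => e (n + 1))) ?_ ?_
  · intro e
    show twist ((-1 : ℝ) : ℂ) (1 / 4) 1 (pt e) = _
    cases h : e 0
    · simp only [Bool.false_eq_true, if_false]
      conv_lhs => rw [← cons_eta e, h, t_pt_false]
    · simp only [if_true]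
      conv_lhs => rw [← cons_eta e, h, t_pt_true]
      conv_rhs => rw [← cons_eta e, h]
  · intro e
    show twist ((-1 : ℝ) : ℂ) (1 / 4) 1 (pt _) = _
    cases h : e 0
    · simp only [Bool.false_eq_true, if_false]
      rw [t_pt_false, opp_opp]
      conv_rhs => rw [← cons_eta e, h]
    · simp only [if_true]
      conv_lhs => rw [← cons_eta e, h, t_pt_true]
      conv_rhs => rw [← cons_eta e, h]

theorem u_union : act ZC gu '' (cone false ∪ cone true) = cone false ∪ cone true := by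
  refine union_image (fun e => if e 0 then cons false (cons true (opp fun n => e (n + 1))) else
    if e 1 then cons true (opp fun n => e (n + 2)) else e) ?_ ?_
  · intro e
    show uu (pt e) = _
    cases h : e 0
    · simp only [Bool.false_eq_true, if_false]
      cases h1 : e 1
      · simp only [Bool.false_eq_true, if_false]
        have e1 : e = cons false (cons false fun n => e (n + 2)) := by
          ext n
          rcases n with _ | _ | n
          · exact h
          · exact h1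
          · rfl
        rw [e1, u_pt_false_false]
      · simp only [if_true]
        have e1 : e = cons false (cons true fun n => e (n + 2)) := by
          ext n
          rcases n with _ | _ | n
          · exact h
          · exact h1
          · rfl
        conv_lhs => rw [e1, u_pt_false_true]
    · simp only [if_true]
      conv_lhs => rw [← cons_eta e, h, u_pt_true]
  · intro e
    show uu (pt _) = _
    cases h : e 0
    · simp only [Bool.false_eq_true, if_false]
      cases h1 : e 1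
      · simp only [Bool.false_eq_true, if_false]
        have e1 : e = cons false (cons false fun n => e (n + 2)) := by
          ext n
          rcases n with _ | _ | n
          · exact h
          · exact h1
          · rfl
        rw [e1, u_pt_false_false]
      · simp only [if_true]
        have e1 : e = cons false (cons true fun n => e (n + 2)) := by
          ext n
          rcases n with _ | _ | n
          · exact h
          · exact h1
          · rfl
        rw [u_pt_true, opp_opp]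
        conv_rhs => rw [e1]
    · simp only [if_true]
      rw [u_pt_false_true, opp_opp]
      conv_rhs => rw [← cons_eta e, h]

/-- The group is not amenable. -/
theorem HH_not_amenable : ¬ IsAmenable HH := by
  have hs : gs ∈ Lam := Subgroup.subset_closure (by simp)
  have ht : gt ∈ Lam := Subgroup.subset_closure (by simp)
  have hu : gu ∈ Lam := Subgroup.subset_closure (by simp)
  refine not_amenable_of_action (toMap.subgroupMap Lam) ((act ZC).comp Lam.subtype) ?_
    (cone false) (cone true) (cone' false) (cone' true) ⟨pt fun _ => true, pt_mem _⟩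
    ((union_iff _).2 ⟨_, rfl⟩) cone_disjoint cone'_disjoint cone'_union
    ⟨gs, hs⟩ ⟨gt, ht⟩ ⟨gu, hu⟩ s_union t_union u_union s_image t_image u_image
  intro l hl
  have h1 : toMap l.1 = 1 := congrArg Subtype.val hl
  exact act_of_toMap h1

/-- Elements of bounded support. -/
def Bd : Subgroup Lam where
  carrier := {F | ∃ R : ℝ, ∀ z, R ≤ ‖z‖ → F.1.1 z = z}
  mul_mem' := by
    rintro F G ⟨R, hR⟩ ⟨S, hS⟩
    refine ⟨max R S, fun z hz => ?_⟩
    show F.1.1 (G.1.1 z) = z
    rw [hS z ((le_max_right _ _).trans hz), hR z ((le_max_left _ _).trans hz)]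
  one_mem' := ⟨0, fun _ _ => rfl⟩
  inv_mem' := by
    rintro F ⟨R, hR⟩
    refine ⟨R, fun z hz => ?_⟩
    show F.1.1.symm z = z
    rw [Homeomorph.symm_apply_eq, hR z hz]

/-- the translation as an element of the group -/
noncomputable def lT : Lam := ⟨gT, Subgroup.subset_closure (by simp)⟩

theorem lT_zpow (k : ℤ) (z : ℂ) : (lT ^ k).1.1 z = z + 4 * k := by
  induction k using Int.induction_on generalizing z with
  | zero => simp
  | succ k ih =>
    rw [zpow_add_one]
    show (lT ^ (k : ℤ)).1.1 (z + 4) = _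
    rw [ih]
    push_cast
    ring
  | pred k ih =>
    rw [zpow_sub_one]
    have e : (Homeomorph.addRight (4 : ℂ)).symm z = z - 4 := by
      rw [Homeomorph.symm_apply_eq]
      simp
    show (lT ^ (-(k : ℤ))).1.1 ((Homeomorph.addRight (4 : ℂ)).symm z) = _
    rw [ih, e]
    push_cast
    ring

theorem lT_zpow_inv (k : ℤ) (z : ℂ) : ((lT ^ k)⁻¹).1.1 z = z - 4 * k := by
  rw [← zpow_neg, lT_zpow]
  push_cast
  ring

theorem norm_shift (z : ℂ) (k : ℤ) : ‖z‖ ≤ ‖z - 4 * k‖ + 4 * |(k : ℝ)| := by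
  calc ‖z‖ = ‖(z - 4 * k) + 4 * k‖ := by congr 1; ring
    _ ≤ ‖z - 4 * k‖ + ‖(4 * k : ℂ)‖ := norm_add_le _ _
    _ = _ := by
      rw [norm_mul, Complex.norm_intCast]
      norm_num

theorem QM_hom {φ : Lam → ℝ} (hφ : IsHomogeneousQuasimorphism φ) (g h : Lam) :
    φ (g * h) = φ g + φ h := by
  refine hφ.hom_of_displaced Bd lT ?_ ?_ ?_ g h
  · rintro x ⟨R, hR⟩ k
    refine ⟨R + 4 * |(k : ℝ)|, fun z hz => ?_⟩
    show (lT ^ k).1.1 (x.1.1 (((lT ^ k)⁻¹).1.1 z)) = z
    rw [lT_zpow_inv, hR, lT_zpow]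
    · ring
    · have := norm_shift z k
      linarith
  · intro g
    obtain ⟨-, k, R, hk⟩ := g.1.2
    refine ⟨g * (lT ^ k)⁻¹, ⟨R + 4 * |(k : ℝ)|, fun z hz => ?_⟩, k, by group⟩
    show g.1.1 (((lT ^ k)⁻¹).1.1 z) = z
    rw [lT_zpow_inv, hk]
    · ring
    · have := norm_shift z k
      linarith
  · rintro x ⟨R, hR⟩ y ⟨S, hS⟩
    -- a common bound
    obtain ⟨m, hm⟩ := exists_nat_gt (max R S)
    refine ⟨lT ^ m, fun a ha b hb j hj => ?_⟩
    have hbd : ∀ a : Lam, (a = x ∨ a = y) → ∀ z, (m : ℝ) ≤ ‖z‖ → a.1.1 z = z := by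
      rintro a (rfl | rfl) z hz
      · exact hR z (((le_max_left _ _).trans hm.le).trans hz)
      · exact hS z (((le_max_right _ _).trans hm.le).trans hz)
    have hpow : (lT ^ m) ^ j = lT ^ ((m * j : ℕ) : ℤ) := by
      rw [zpow_natCast, pow_mul]
    apply Subtype.ext
    apply Subtype.ext
    refine commute_of_disjoint (A := {z | ‖z‖ < m}) (B := {z | ‖z - 4 * ((m * j : ℕ) : ℤ)‖ < m})
      (fun z hz => hbd a ha z (not_lt.1 hz)) (fun z hz => ?_) ?_
    · show ((lT ^ m) ^ j).1.1 (b.1.1 ((((lT ^ m) ^ j)⁻¹).1.1 z)) = z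
      rw [hpow, lT_zpow_inv, hbd b hb _ (not_lt.1 hz), lT_zpow]
      ring
    · rw [Set.disjoint_left]
      intro z hz hz'
      simp only [Set.mem_ofPred_eq] at hz hz'
      have h1 : ‖(4 * ((m * j : ℕ) : ℤ) : ℂ)‖ ≤ ‖z‖ + ‖z - 4 * ((m * j : ℕ) : ℤ)‖ := by
        calc ‖(4 * ((m * j : ℕ) : ℤ) : ℂ)‖ = ‖z - (z - 4 * ((m * j : ℕ) : ℤ))‖ := by congr 1; ring
          _ ≤ _ := norm_sub_le _ _
      rw [norm_mul, Complex.norm_intCast] at h1
      have h2 : (m : ℝ) ≤ m * j := by
        have : (1 : ℝ) ≤ j := by exact_mod_cast hj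
        nlinarith [(Nat.cast_nonneg m : (0 : ℝ) ≤ m)]
      have h3 : |(((m * j : ℕ) : ℤ) : ℝ)| = m * j := by
        rw [abs_of_nonneg (by positivity)]
        push_cast
        ring
      rw [h3, show ‖(4 : ℂ)‖ = 4 by norm_num] at h1
      have := (Nat.cast_nonneg m : (0 : ℝ) ≤ m)
      linarith

theorem homR_eq_top : HomR HH = ⊤ := by
  rw [eq_top_iff]
  rintro φ -
  have hφ : IsHomogeneousQuasimorphism (φ : HH → ℝ) := φ.2
  let π : Lam →* HH := toMap.subgroupMap Lam
  have hπ : Function.Surjective π := toMap.subgroupMap_surjective Lam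
  have hψ : IsHomogeneousQuasimorphism fun l => (φ : HH → ℝ) (π l) := by
    obtain ⟨D, hD⟩ := hφ.bounded
    refine ⟨⟨D, fun g h => ?_⟩, fun g n => ?_⟩
    · rw [map_mul]
      exact hD _ _
    · rw [map_zpow]
      exact hφ.homogeneous _ _
  intro g h
  obtain ⟨g', rfl⟩ := hπ g
  obtain ⟨h', rfl⟩ := hπ h
  have := QM_hom hψ g' h'
  rwa [map_mul] at this

theorem main : ∃ (C : Set ℂ) (hC : IsClosed C), IsCantorSet C ∧
    ∃ H : Subgroup (MapGroup C hC), H.FG ∧ ¬ IsAmenable H ∧
      Module.Finite ℝ (QTilde H) ∧ Module.finrank ℝ (QTilde H) = 0 := by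
  refine ⟨CC, isClosed_CC, isCantorSet_CC, HH, HH_fg, HH_not_amenable, ?_⟩
  have hs : Subsingleton (QTilde HH) := by
    show Subsingleton (Q HH ⧸ HomR HH)
    rw [Submodule.Quotient.subsingleton_iff]
    exact homR_eq_top
  exact ⟨inferInstance, Module.finrank_zero_of_subsingleton⟩

end Pool.Agent.Helper60.MC
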